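import Pool.Agent.Work.MP_969914_nt.Q.Ext

/-! The non-square conditions that follow from the classes modulo four. -/

set_option autoImplicit false

namespace Pool.Agent.Work.MP_969914_nt.QR

lemma sq_mod_four {q k : ℚ} {z : ℤ} (h : IsSquare q) (e : q * k ^ 2 = z) :
    z % 4 = 0 ∨ z % 4 = 1 := by
  have h1 : IsSquare (z : ℚ) := e ▸ h.mul ⟨k, sq k⟩
  obtain ⟨w, rfl⟩ := Rat.isSquare_intCast_iff.1 h1
  rcases Int.emod_two_eq_zero_or_one w with h2 | h2
  · obtain ⟨v, rfl⟩ : ∃ v, w = 2 * v := ⟨w / 2, by omega⟩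
    left
    rw [show 2 * v * (2 * v) = 4 * (v * v) by ring]; omega
  · obtain ⟨v, rfl⟩ : ∃ v, w = 2 * v + 1 := ⟨w / 2, by omega⟩
    right
    rw [show (2 * v + 1) * (2 * v + 1) = 4 * (v * v + v) + 1 by ring]; omega

lemma auto_ns (c : ℚ) (hcl : (c.num % 2 = 1 ∧ c.num % 4 = c.den % 4) ∨ (c.den : ℤ) % 4 = 2) :
    ¬ IsSquare (-c) ∧ ¬ IsSquare (c ^ 2 + c) := by
  have e := c.mul_den_eq_num
  have ha : c.num % 2 = 1 := by
    by_contra ha
    have := (Int.isCoprime_iff_gcd_eq_one.2 c.reduced :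
      IsCoprime c.num (c.den : ℤ)).isUnit_of_dvd' (x := 2) (by omega) (by omega)
    rw [Int.isUnit_iff] at this
    omega
  have h4 : (c.num % 4 = 1 ∨ c.num % 4 = 3) ∧
      ((c.den : ℤ) % 4 = c.num % 4 ∨ (c.den : ℤ) % 4 = 2) := by omega
  constructor
  · intro h
    have := sq_mod_four (k := c.den) (z := -(c.num * c.den)) h (by push_cast; rw [← e]; ring)
    have h5 := Int.mul_emod c.num c.den 4
    rcases h4 with ⟨h6 | h6, h7 | h7⟩ <;> rw [h7, h6] at h5 <;> omega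
  · intro h
    have := sq_mod_four (k := c.den) (z := c.num * (c.num + c.den)) h (by
      push_cast; rw [← e]; ring)
    have h5 := Int.mul_emod c.num (c.num + c.den) 4
    rw [Int.add_emod] at h5
    rcases h4 with ⟨h6 | h6, h7 | h7⟩ <;> rw [h7, h6] at h5 <;> omega

lemma sq_third {c : ℚ} (h : IsSquare (-1 - c)) : c ≤ -1 ∧
    ((c.den : ℤ) % 4 = 0 ∨ (c.den : ℤ) % 4 = 1) ∧
      ((-(c.num + c.den)) % 4 = 0 ∨ (-(c.num + c.den)) % 4 = 1) := by
  have e := c.mul_den_eq_num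
  have hd : (-1 - c).den = c.den := by
    simpa using Rat.intCast_sub_den (-1) c
  obtain ⟨w, hw⟩ := (Rat.isSquare_iff.1 h).2
  rw [hd] at hw
  have hw' : (c.den : ℚ) = (w : ℚ) ^ 2 := by rw [hw]; push_cast; ring
  refine ⟨by linarith [h.nonneg], sq_mod_four (q := 1) (k := w) IsSquare.one (by
    push_cast; rw [hw', one_mul]), sq_mod_four (k := w) h (by push_cast; rw [← e, ← hw']; ring)⟩

end Pool.Agent.Work.MP_969914_nt.QR
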