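import Pool.Agent.Work.MP_969914_nt.Q.Test

/-! The congruence classes and the primitive prime of odd order. -/

set_option autoImplicit false

namespace Pool.Agent.Work.MP_969914_nt.QR

variable {a b s : ℤ}

lemma sq_odd {x : ℤ} (h : x % 2 = 1) : ∃ w, x ^ 2 = 8 * w + 1 := by
  obtain ⟨k, rfl⟩ : ∃ k, x = 2 * k + 1 := ⟨x / 2, by omega⟩
  obtain ⟨w, hw⟩ := Int.even_mul_succ_self k
  exact ⟨w, by linear_combination 4 * hw⟩

lemma mul_sq_odd (a : ℤ) {x : ℤ} (h : x % 2 = 1) : (a * x ^ 2) % 8 = a % 8 := by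
  obtain ⟨w, hw⟩ := sq_odd h
  have : a * x ^ 2 = 8 * (a * w) + a := by rw [hw]; ring
  omega

lemma mul_sq_even {a x : ℤ} (ha : a % 2 = 1) (h : x % 2 = 0) : (a * x ^ 2) % 8 = (2 * x) % 8 := by
  obtain ⟨k, rfl⟩ : ∃ k, x = 2 * k := ⟨x / 2, by omega⟩
  obtain ⟨c, rfl⟩ : ∃ c, a = 2 * c + 1 := ⟨a / 2, by omega⟩
  obtain ⟨w, hw⟩ := Int.even_mul_succ_self k
  have : (2 * c + 1) * (2 * k) ^ 2 = 8 * (c * k ^ 2 + w - k) + 4 * k := by linear_combination 4 * hw
  omega

lemma B_odd (hb : b % 2 = 1) (k : ℕ) : BB b k % 2 = 1 := by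
  induction k with
  | zero => rfl
  | succ k ih => have := mul_sq_odd b ih; rw [BB_succ]; omega

lemma B_mod (hb : b % 2 = 1) (k : ℕ) : BB b (k + 1) % 8 = b % 8 := mul_sq_odd b (B_odd hb k)

lemma mul_bB (hb : b % 2 = 1) (x : ℤ) (k : ℕ) : (x * (b * BB b (k + 1))) % 8 = x % 8 := by
  have h1 : (b * BB b k) % 2 = 1 := by rw [Int.mul_emod, hb, B_odd hb]; rfl
  rw [← mul_sq_odd x h1, BB_succ]; congr 1; ring

lemma B_even (hb : b % 2 = 0) (k : ℕ) : BB b (k + 1) % 2 = 0 := by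
  rw [BB_succ, Int.mul_emod, hb]; simp

lemma B_eight (hb : b % 2 = 0) (k : ℕ) : BB b (k + 2) % 8 = 0 := by
  obtain ⟨c, hc⟩ : ∃ c, b = 2 * c := ⟨b / 2, by omega⟩
  obtain ⟨d, hd⟩ : ∃ d, BB b (k + 1) = 2 * d := ⟨BB b (k + 1) / 2, by have := B_even hb k; omega⟩
  have : BB b (k + 2) = 8 * (c * d ^ 2) := by rw [BB_succ, hd, hc]; ring
  omega

lemma X_odd (h : (a + b) % 2 = 1) (k : ℕ) : XX a b (k + 1) % 2 = 1 := by
  induction k with
  | zero => rw [XX_one]; rfl
  | succ k ih =>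
    have h1 := mul_sq_odd a ih
    rw [XX_succ]
    rcases Int.emod_two_eq_zero_or_one b with hb | hb
    · have := B_even hb k; omega
    · have := B_odd hb (k + 1); omega

lemma X_I (ha : a % 2 = 1) (hb : b % 2 = 0) {k : ℕ} (hk : 3 ≤ k) : XX a b k % 8 = a % 8 := by
  obtain ⟨k, rfl⟩ : ∃ j, k = j + 3 := ⟨k - 3, by omega⟩
  have h1 := mul_sq_odd a (X_odd (a := a) (b := b) (by omega) (k + 1))
  have h2 := B_eight hb k
  rw [show k + 1 + 1 = k + 2 from rfl] at h1
  rw [XX_succ (k + 2)]; omega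

lemma Y_I (ha : a % 2 = 1) (hb : b % 2 = 0) (i : ℕ) : YY a b (i + 1) % 4 = a % 4 := by
  have h1 := X_I ha hb (k := i + 1 + 2) (by omega)
  obtain ⟨c, hc⟩ : ∃ c, b = 2 * c := ⟨b / 2, by omega⟩
  obtain ⟨d, hd⟩ : ∃ d, BB b (i + 1) = 2 * d := ⟨BB b (i + 1) / 2, by have := B_even hb i; omega⟩
  have : XX a b (i + 1 + 1) * (b * BB b (i + 1)) = 4 * (XX a b (i + 1 + 1) * c * d) := by
    rw [hd]; linear_combination (XX a b (i + 1 + 1) * 2 * d) * hc
  rw [YY]; omega

lemma X_II (ha : a % 2 = 0) (hb : b % 2 = 1) {k : ℕ} (hk : 2 ≤ k) : XX a b k % 8 = (a + b) % 8 := by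
  obtain ⟨k, rfl⟩ : ∃ j, k = j + 2 := ⟨k - 2, by omega⟩
  have h1 := mul_sq_odd a (X_odd (a := a) (b := b) (by omega) k)
  have h2 := B_mod hb k
  rw [XX_succ (k + 1)]; omega

lemma Y_mod (hb : b % 2 = 1) (i : ℕ) :
    YY a b (i + 1) % 8 = (XX a b (i + 2) + XX a b (i + 3)) % 8 := by
  have := mul_bB hb (XX a b (i + 2)) i
  rw [YY, show i + 1 + 1 = i + 2 from rfl, show i + 1 + 2 = i + 3 from rfl]; omega

lemma X_III (ha : a % 2 = 1) (hb : b % 2 = 1) (j : ℕ) :
    XX a b (2 * j + 2) % 8 = (a + b) % 8 ∧ XX a b (2 * j + 3) % 8 = (2 * a + 3 * b) % 8 := by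
  have key : ∀ k, XX a b (k + 1) % 2 = 1 →
      XX a b (k + 2) % 8 = (a + b) % 8 ∧ XX a b (k + 3) % 8 = (2 * a + 3 * b) % 8 := by
    intro k hk
    have h1 := mul_sq_odd a hk
    have h2 := B_mod hb k
    have h3 := B_mod hb (k + 1)
    have h4 : XX a b (k + 2) % 8 = (a + b) % 8 := by rw [XX_succ (k + 1)]; omega
    have h5 := mul_sq_even ha (x := XX a b (k + 2)) (by omega)
    exact ⟨h4, by rw [XX_succ (k + 2), show k + 2 = k + 1 + 1 from rfl] at *; omega⟩
  induction j with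
  | zero => exact key 0 (by rw [XX_one]; rfl)
  | succ j ih =>
    exact key (2 * j + 2) (by have := ih.2; rw [show 2 * j + 2 + 1 = 2 * j + 3 from rfl]; omega)

lemma X_III_odd (ha : a % 2 = 1) (hb : b % 2 = 1) {k : ℕ} (hk : 3 ≤ k) (ho : k % 2 = 1) :
    XX a b k % 8 = (2 * a + 3 * b) % 8 := by
  rw [show k = 2 * (k / 2 - 1) + 3 by omega]; exact (X_III ha hb _).2

lemma X_III_even (ha : a % 2 = 1) (hb : b % 2 = 1) {k : ℕ} (hk : 0 < k) (ho : k % 2 = 0) :
    XX a b k % 8 = (a + b) % 8 := by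
  rw [show k = 2 * (k / 2 - 1) + 2 by omega]; exact (X_III ha hb _).1

lemma Y_III (ha : a % 2 = 1) (hb : b % 2 = 1) (i : ℕ) : YY a b (i + 1) % 8 = (3 * a + 4 * b) % 8 := by
  have h1 := Y_mod (a := a) hb i
  rcases Nat.mod_two_eq_zero_or_one i with h | h
  · have := X_III_even ha hb (k := i + 2) (by omega) (by omega)
    have := X_III_odd ha hb (k := i + 3) (by omega) (by omega)
    omega
  · have := X_III_odd ha hb (k := i + 2) (by omega) (by omega)
    have := X_III_even ha hb (k := i + 3) (by omega) (by omega)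
    omega

lemma X_u (ha : a % 2 = 1) (hb : b % 2 = 1) (j : ℕ) :
    ∃ u, XX a b (2 * j + 4) = XX a b 2 * u ∧ u % 8 = (1 + 2 * (a + b)) % 8 := by
  have key : ∀ k u, XX a b (k + 1) = (a + b) * u → u % 2 = 1 →
      ∃ u', XX a b (k + 3) = (a + b) * u' ∧ u' % 8 = (1 + 2 * (a + b)) % 8 := by
    intro k u h hu
    obtain ⟨g, hg⟩ : ∃ g, a + b = 2 * g := ⟨(a + b) / 2, by omega⟩
    obtain ⟨w1, h1⟩ := sq_odd (B_odd hb (k + 1))
    have h2 : (u ^ 2 * (a ^ 2 * BB b (k + 1))) % 2 = 1 := by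
      obtain ⟨w, hw⟩ := sq_odd (x := u * a) (by rw [Int.mul_emod, hu, ha]; rfl)
      have h3 := mul_sq_odd (BB b (k + 1)) (x := u * a) (by rw [Int.mul_emod, hu, ha]; rfl)
      have h4 := B_odd hb (k + 1)
      rw [show u ^ 2 * (a ^ 2 * BB b (k + 1)) = BB b (k + 1) * (u * a) ^ 2 by ring]; omega
    obtain ⟨z, hz⟩ : ∃ z, u ^ 2 * (a ^ 2 * BB b (k + 1)) = 2 * z + 1 :=
      ⟨u ^ 2 * (a ^ 2 * BB b (k + 1)) / 2, by omega⟩
    refine ⟨8 * (w1 + g * z + g ^ 3 * u ^ 4 * a ^ 3) + 1 + 4 * g, ?_, by omega⟩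
    rw [XX_succ (k + 2), XX_succ (k + 1), BB_succ (k + 1), h]
    have e : b = 2 * g - a := by omega
    rw [hg]
    linear_combination (2 * g) * h1 + (8 * g ^ 2) * hz + BB b (k + 1) ^ 2 * e
  rw [XX_two]
  induction j with
  | zero => exact key 1 1 (by rw [mul_one]; exact XX_two) rfl
  | succ j ih =>
    obtain ⟨u, h1, h2⟩ := ih
    exact key (2 * j + 3) u h1 (by omega)

lemma B_pos (hb : 0 < b) (k : ℕ) : 0 < BB b k := by
  induction k with
  | zero => exact one_pos
  | succ k ih => rw [BB_succ]; positivity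

lemma X_sign (hb : 0 < b) (hs : (s = 1 ∧ 0 < a + b) ∨ (s = -1 ∧ a + 2 * b < 0)) {k : ℕ}
    (hk : 2 ≤ k) : 0 < s * XX a b k := by
  obtain ⟨k, rfl⟩ : ∃ j, k = j + 2 := ⟨k - 2, by omega⟩
  rcases hs with ⟨rfl, h⟩ | ⟨rfl, h⟩
  · have key : ∀ k, 0 < XX a b (k + 1) ∧ (a < 0 → XX a b (k + 1) ≤ BB b k) := by
      intro k
      induction k with
      | zero => rw [XX_one]; exact ⟨one_pos, fun _ => le_rfl⟩
      | succ k ih =>
        have h1 := B_pos hb (k + 1)
        have h2 : 0 < XX a b (k + 1) ^ 2 := pow_pos ih.1 2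
        rw [XX_succ (k + 1)]
        refine ⟨?_, fun ha => by nlinarith⟩
        rcases lt_or_ge a 0 with ha | ha
        · have h3 : XX a b (k + 1) ^ 2 ≤ BB b k ^ 2 := pow_le_pow_left₀ ih.1.le (ih.2 ha) 2
          rw [BB_succ]; nlinarith
        · positivity
    simpa using (key (k + 1)).1
  · have key : ∀ k, BB b k ^ 2 ≤ XX a b (k + 1) ^ 2 → XX a b (k + 2) ≤ -BB b (k + 1) := by
      intro k h1
      have h2 : 0 < BB b k ^ 2 := pow_pos (B_pos hb k) 2
      rw [XX_succ (k + 1), BB_succ]; nlinarith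
    have key2 : ∀ k, XX a b (k + 2) ≤ -BB b (k + 1) := by
      intro k
      induction k with
      | zero => exact key 0 (by simp [XX_one, BB])
      | succ k ih => exact key (k + 1) (by have := B_pos hb (k + 1); nlinarith)
    have := key2 k
    have := B_pos hb (k + 1)
    omega

lemma Y_sign (hb : 0 < b) (hs : (s = 1 ∧ 0 < a + b) ∨ (s = -1 ∧ a + 2 * b < 0)) (i : ℕ) :
    0 < s * YY a b i := by
  cases i with
  | zero => rw [YY_zero]; rcases hs with ⟨rfl, h⟩ | ⟨rfl, h⟩ <;> omega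
  | succ i =>
    have h1 := X_sign hb hs (k := i + 1 + 1) (by omega)
    have h2 := X_sign hb hs (k := i + 1 + 2) (by omega)
    have h3 := mul_pos h1 (mul_pos hb (B_pos hb (i + 1)))
    rw [YY]; nlinarith

lemma JJ_s (hs : s = 1 ∨ s = -1) {v : ℤ} (hv : v % 2 = 1) :
    JJ s v = if s = 1 then 1 else kap v := by
  rcases hs with rfl | rfl
  · simp [JJ_one_left]
  · simp [JJ_neg_one hv]

lemma kap_neg (hs : s = 1 ∨ s = -1) {v : ℤ} (h : 0 < s * v) (h4 : s * v % 4 = 3) :
    JJ (-1) v = -1 := by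
  rcases hs with rfl | rfl <;> rw [JJ_neg_one (by omega), kap, if_neg (by omega)]

lemma kap_pos (hs : s = 1 ∨ s = -1) {v : ℤ} (h : 0 < s * v) (h4 : s * v % 4 = 1) :
    JJ (-1) v = 1 := by
  rcases hs with rfl | rfl <;> rw [JJ_neg_one (by omega), kap, if_pos (by omega)]

lemma rho_eq (hs : s = 1 ∨ s = -1) (x : ℤ) {y y' : ℤ} (h : 0 < s * y) (h' : 0 < s * y')
    (h4 : y % 4 = y' % 4) : rho x y * rho x y' = 1 := by
  unfold rho
  rcases hs with rfl | rfl <;> split_ifs <;> first | rfl | omega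

lemma ev1 {x y : ℤ} (hx : x % 2 = 1) (hy : y % 8 = (x + 4) % 8) : c8 x * c8 y = -1 := by
  have h : (x % 8 = 1 ∧ y % 8 = 5) ∨ (x % 8 = 3 ∧ y % 8 = 7) ∨ (x % 8 = 5 ∧ y % 8 = 1) ∨
      (x % 8 = 7 ∧ y % 8 = 3) := by omega
  rcases h with ⟨h, h'⟩ | ⟨h, h'⟩ | ⟨h, h'⟩ | ⟨h, h'⟩ <;> simp [c8, h, h']

lemma ev2 (hs : s = 1 ∨ s = -1) {u y : ℤ} (h1 : 0 < s * u) (h2 : 0 < s * y) (h3 : 0 < b)
    (h4 : s * b % 4 = 3) (h5 : u % 2 = 1) (h6 : y % 8 = (2 * u + b + 4) % 8) :
    c8 y * rho u y * (c8 b * rho u b) = -1 := by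
  have h7 : u % 4 = 1 ∨ u % 4 = 3 := by omega
  rcases hs with rfl | rfl
  · have e1 : ¬ u < 0 := by omega
    have h8 : b % 8 = 3 ∨ b % 8 = 7 := by omega
    have h9 : b % 4 = 3 := by omega
    rcases h7 with h7 | h7 <;> rcases h8 with h8 | h8
    · simp [c8, rho, e1, h7, h8, show y % 8 = 1 by omega]
    · simp [c8, rho, e1, h7, h8, show y % 8 = 5 by omega]
    · simp [c8, rho, e1, h7, h8, h9, show y % 8 = 5 by omega, show y % 4 = 1 by omega]
    · simp [c8, rho, e1, h7, h8, h9, show y % 8 = 1 by omega, show y % 4 = 1 by omega]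
  · have e1 : u < 0 := by omega
    have e2 : y < 0 := by omega
    have e3 : ¬ b < 0 := by omega
    have h8 : b % 8 = 1 ∨ b % 8 = 5 := by omega
    have h9 : b % 4 = 1 := by omega
    rcases h7 with h7 | h7 <;> rcases h8 with h8 | h8
    · simp [c8, rho, e1, e2, e3, h7, h8, show y % 8 = 7 by omega]
    · simp [c8, rho, e1, e2, e3, h7, h8, show y % 8 = 3 by omega]
    · simp [c8, rho, e1, e2, e3, h7, h8, h9, show y % 8 = 3 by omega, show y % 4 = 3 by omega]
    · simp [c8, rho, e1, e2, e3, h7, h8, h9, show y % 8 = 7 by omega, show y % 4 = 3 by omega]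

variable {m : ℕ} {F : Finset ℕ}

lemma erase_ne (hm : m = 1) (hn : 3 ≤ m * ∏ p ∈ F, p) (h2 : 2 ∈ F) :
    (F.erase 2).Nonempty := by
  rw [Finset.nonempty_iff_ne_empty]
  intro e
  rw [← Finset.mul_prod_erase F _ h2, e, hm] at hn
  simp at hn

lemma false_I (h : Ctx a b s m F) (hb0 : 0 < b) (hY : ∀ i, 0 < s * YY a b i)
    (hn : 3 ≤ m * ∏ p ∈ F, p) (ha : a % 2 = 1)
    (hcl : b % 4 = 2 ∨ (b % 4 = 0 ∧ s * a % 4 = 3)) : False := by
  have hb : b % 2 = 0 := by omega
  have hs := h.hs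
  have hab := h.hab
  have hX := h.hX
  have hX8 := fun k => X_I ha hb (k := k)
  have hY4 := Y_I ha hb
  have hY0 := YY_zero (a := a) (b := b)
  have hX2 := XX_two (a := a) (b := b)
  by_cases h3 : s * a % 4 = 3
  · have hk : ∀ k, 3 ≤ k → JJ (-1) (XX a b k) = -1 := fun k hk =>
      kap_neg hs (hX k (by omega)) (by have := hX8 k hk; rcases hs with rfl | rfl <;> omega)
    have hk' : ∀ i, JJ (-1) (YY a b (i + 1)) = -1 := fun i =>
      kap_neg hs (hY _) (by have := hY4 i; rcases hs with rfl | rfl <;> omega)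
    rcases (show m = 1 ∨ 2 ≤ m by have := h.hm; omega) with hm | hm
    swap
    · have := h.T1 (i := m - 2) (by omega)
      rw [hk'] at this; omega
    by_cases h2 : 2 ∈ F
    swap
    · have := h.T5 hm h2 (Or.inl rfl) (α := -1) rfl fun j => hk _ (by omega)
      omega
    have hne := erase_ne hm hn h2
    rcases hcl with hcl | hcl
    · have hp := Finset.min'_mem _ hne
      have hmin : ∀ x ∈ F.erase 2, (F.erase 2).min' hne ≤ x := fun x hx => Finset.min'_le _ x hx
      generalize (F.erase 2).min' hne = p at hp hmin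
      have hp' := Finset.mem_erase.1 hp
      have h4 := (h.hF p hp'.2).two_le
      have h5 := Nat.odd_iff.1 ((h.hF p hp'.2).odd_of_ne_two hp'.1)
      obtain ⟨i, rfl⟩ : ∃ i, p = 2 * i + 3 := ⟨p / 2 - 1, by omega⟩
      have h6 := h.T4 hm h2 hp'.2 fun x hx hx2 => hmin x (Finset.mem_erase.2 ⟨hx2, hx⟩)
      have h7 := hY4 (2 * i + 1)
      rw [show 2 * i + 1 + 1 = 2 * i + 2 from rfl] at h7
      have h8 := hk' (2 * i + 1)
      rw [show 2 * i + 1 + 1 = 2 * i + 2 from rfl] at h8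
      have h9 : JJ (-1) (YY a b 0) = -1 :=
        kap_neg hs (hY _) (by rcases hs with rfl | rfl <;> omega)
      rw [HH_odd (by omega) (by omega) (cop_X_Y hab (by omega) _),
        HH_odd (by omega) (by omega) (cop_X_Y hab (by omega) _),
        rho_eq hs _ (hY _) (hY _) (by omega), h8] at h6
      rcases hs with rfl | rfl
      · simp [JJ_one_left] at h6
      · rw [h8, h9] at h6; omega
    · have := h.T6 hm h2 hne (Or.inl rfl) (α := -1) (β := -1) rfl rfl (fun j => hk _ (by omega))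
        fun j => hk _ (by omega)
      rw [kap_neg hs (hX 2 le_rfl) (by rcases hs with rfl | rfl <;> omega)] at this
      omega
  · have hb4 : b % 4 = 2 := by tauto
    have h1 : s * a % 4 = 1 := by rcases hs with rfl | rfl <;> omega
    obtain ⟨β, hβ⟩ : ∃ β, b = 2 * β := ⟨b / 2, by omega⟩
    have hk : ∀ k, 3 ≤ k → JJ (-1) (XX a b k) = 1 := fun k hk =>
      kap_pos hs (hX k (by omega)) (by have := hX8 k hk; rcases hs with rfl | rfl <;> omega)
    have h9 : JJ (-1) (YY a b 0) = 1 :=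
      kap_pos hs (hY _) (by rcases hs with rfl | rfl <;> omega)
    have hH0 : HH b (YY a b 0) = c8 (YY a b 0) * rho β (YY a b 0) :=
      HH_two hβ (by omega) (by omega) (cop_Y_b hab 0).symm
    have hY00 := hY 0
    rcases (show m = 1 ∨ 2 ≤ m by have := h.hm; omega) with hm | hm
    swap
    · have h4 := h.T2 hm
      obtain ⟨i, rfl⟩ : ∃ i, m = i + 1 := ⟨m - 1, by omega⟩
      have h5 := hY4 i
      have h6 := hX8 (i + 1 + 1) (by omega)
      have h7 := X_odd (a := a) (b := b) (by omega) i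
      have h8 := hY (i + 1)
      have h10 := hX (i + 1 + 1) (by omega)
      rw [HH_odd h7 (by omega) (cop_X_Y hab (by omega) _),
        HH_odd h7 (by omega) (cop_X_Y hab (by omega) _), rho_eq hs _ h8 hY00 (by omega), h9, hH0,
        kap_pos hs h8 (by rcases hs with rfl | rfl <;> omega),
        HH_odd (by omega) (by omega) (cop_X_Y hab (by omega) _),
        HH_two hβ (by omega) (by omega) (cop_X_b hab _).symm] at h4
      have e1 : rho (XX a b (i + 1 + 1)) (YY a b (i + 1)) = 1 := by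
        unfold rho
        rcases hs with rfl | rfl <;> split_ifs <;> first | rfl | omega
      have e2 := rho_eq hs β hY00 h10 (by omega)
      have e3 : c8 (YY a b 0) * c8 (XX a b (i + 1 + 1)) = -1 := by
        unfold c8
        split_ifs <;> first | rfl | omega
      rw [e1] at h4
      have : (1 : ℤ) = -1 := by
        linear_combination (-1 : ℤ) * h4 + e3 + (c8 (YY a b 0) * c8 (XX a b (i + 1 + 1))) * e2
      omega
    by_cases h2 : 2 ∈ F
    · have := h.T6 hm h2 (erase_ne hm hn h2) (Or.inl rfl) (α := 1) (β := 1) rfl rfl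
        (fun j => hk _ (by omega)) fun j => hk _ (by omega)
      rw [kap_neg hs (hX 2 le_rfl) (by rcases hs with rfl | rfl <;> omega)] at this
      omega
    · have h4 := h.T5 hm h2 (Or.inr rfl) (α := c8 a) (by unfold c8; split_ifs <;> rfl) fun j => by
        have := hX8 (2 * j + 3) (by omega)
        rw [JJ_two (by omega), c8, c8, this]
      have h5 := h.T3 hm
      rw [h9, hH0, JJ_s hs (by omega), hβ, JJ_two_mul, JJ_s hs (by omega), ← hβ,
        ← JJ_neg_one (v := YY a b 0) (by omega), h9] at h5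
      unfold c8 at h4
      unfold c8 rho kap at h5
      rcases hs with rfl | rfl <;> split_ifs at h4 h5 <;> omega

lemma false_II (h : Ctx a b s m F) (hY : ∀ i, 0 < s * YY a b i)
    (hn : 3 ≤ m * ∏ p ∈ F, p) (ha : a % 2 = 0) (hb : b % 2 = 1) (hcl : s * (a + b) % 4 = 3) :
    False := by
  have hs := h.hs
  have hX8 := fun k => X_II ha hb (k := k)
  have hk : ∀ k, 2 ≤ k → JJ (-1) (XX a b k) = -1 := fun k hk =>
    kap_neg hs (h.hX k hk) (by have := hX8 k hk; rcases hs with rfl | rfl <;> omega)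
  rcases (show m = 1 ∨ 2 ≤ m by have := h.hm; omega) with hm | hm
  swap
  · have h1 := h.T1 (i := m - 2) (by omega)
    have h2 := Y_mod (a := a) hb (m - 2)
    have h3 := hX8 (m - 2 + 2) (by omega)
    have h4 := hX8 (m - 2 + 3) (by omega)
    have h5 := hY (m - 2 + 1)
    obtain ⟨y, hy⟩ : ∃ y, YY a b (m - 2 + 1) = 2 * y := ⟨YY a b (m - 2 + 1) / 2, by omega⟩
    rw [hy, JJ_two_mul, kap_neg hs (by rcases hs with rfl | rfl <;> omega)
      (by rcases hs with rfl | rfl <;> omega)] at h1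
    omega
  by_cases h2 : 2 ∈ F
  · have := h.T6 hm h2 (erase_ne hm hn h2) (Or.inl rfl) (α := -1) (β := -1) rfl rfl
      (fun j => hk _ (by omega)) fun j => hk _ (by omega)
    rw [hk 2 le_rfl] at this
    omega
  · have := h.T5 hm h2 (Or.inl rfl) (α := -1) rfl fun j => hk _ (by omega)
    omega

lemma false_III (h : Ctx a b s m F) (hb0 : 0 < b) (hY : ∀ i, 0 < s * YY a b i)
    (hn : 3 ≤ m * ∏ p ∈ F, p) (hmF : ∀ p, p.Prime → p ∣ m → p ∈ F) (ha : a % 2 = 1)
    (hb : b % 2 = 1) (hcl : a % 4 = b % 4 ∨ s * b % 4 = 3) : False := by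
  have hs := h.hs
  have hab := h.hab
  have hX := h.hX
  have hXo := fun k => X_III_odd ha hb (k := k)
  have hXe := fun k => X_III_even ha hb (k := k)
  have hY8 := Y_III ha hb
  have hY0 := YY_zero (a := a) (b := b)
  have hX2 := XX_two (a := a) (b := b)
  have hY00 := hY 0
  have hu : ∀ j, ∃ u, XX a b (2 * j + 4) = XX a b 2 * u ∧ u % 8 = (1 + 2 * (a + b)) % 8 ∧ 0 < u := by
    intro j
    obtain ⟨u, h1, h2⟩ := X_u ha hb j
    refine ⟨u, h1, h2, ?_⟩
    have h3 := hX (2 * j + 4) (by omega)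
    rw [h1, ← mul_assoc] at h3
    exact (pos_iff_pos_of_mul_pos h3).1 (hX 2 le_rfl)
  rcases (show m = 1 ∨ 2 ≤ m by have := h.hm; omega) with hm | hm
  · by_cases h3 : s * b % 4 = 3
    · have hk : ∀ j, JJ (-1) (XX a b (2 * j + 3)) = -1 := fun j =>
        kap_neg hs (hX _ (by omega)) (by
          have := hXo (2 * j + 3) (by omega) (by omega)
          have := hXe 2 (by omega) (by omega)
          rcases hs with rfl | rfl <;> omega)
      by_cases h2 : 2 ∈ F
      · have := h.T6 hm h2 (erase_ne hm hn h2) (Or.inl rfl) (α := -1) rfl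
          (JJ_neg_one_sq (XX a b 2)) hk fun j => by
            obtain ⟨u, h4, h5, h6⟩ := hu j
            rw [h4, JJ_mul_right _ (h.ne (by omega)) h6.ne',
              kap_pos (s := 1) (v := u) (Or.inl rfl) (by omega) (by omega), mul_one]
        rw [mul_assoc, JJ_neg_one_sq] at this
        omega
      · have := h.T5 hm h2 (Or.inl rfl) (α := -1) rfl hk
        omega
    · have h4 : a % 4 = b % 4 := by tauto
      have h5 := h.T3 hm
      rw [HH_odd hb (by omega) (cop_Y_b hab 0).symm, JJ_s hs (by omega), JJ_s hs hb,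
        JJ_neg_one (by omega)] at h5
      unfold rho kap at h5
      rcases hs with rfl | rfl <;> split_ifs at h5 <;> omega
  by_cases hD : a % 4 = b % 4 ∧ s * b % 4 = 3
  swap
  · have h1 := h.T1 (i := m - 2) (by omega)
    have h2 := hY8 (m - 2)
    rw [kap_neg hs (hY _) (by rcases hs with rfl | rfl <;> omega)] at h1
    omega
  obtain ⟨h4, h3⟩ := hD
  have hev : ∀ K, 0 < K → K % 2 = 0 → ∃ u, XX a b K = 2 * u ∧ u % 2 = 1 ∧ 0 < s * u ∧
      (2 * u) % 8 = (a + b) % 8 := by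
    intro K h1 h2
    have h5 := hXe K h1 h2
    have h6 := hX K (by omega)
    refine ⟨XX a b K / 2, by omega, by omega, ?_, by omega⟩
    rcases hs with rfl | rfl <;> omega
  rcases Nat.mod_two_eq_zero_or_one m with hm2 | hm2
  · rcases (show m = 2 ∨ 4 ≤ m by omega) with hm' | hm'
    · have := h.T7 hm' (Or.inr rfl) (β := -JJ 2 (XX a b 2))
        (by rw [neg_mul_neg]; exact JJ_two_sq (h.ne (by omega))) fun j => by
          obtain ⟨u, h5, h6, h7⟩ := hu j
          rw [h5, JJ_mul_right _ (h.ne (by omega)) h7.ne', JJ_two (v := u) (by omega), c8,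
            if_neg (by omega), mul_neg, mul_one]
      rw [mul_neg, JJ_two_sq (h.ne (by omega))] at this
      omega
    refine h.T8 hm' hm2 hmF ?_ ?_ ?_
    · intro K j j' k1 k2 k3 k4 k5 k6 k7 k8
      obtain ⟨u, h5, h6, h7, -⟩ := hev K k2 k1
      have h8 := hXo j k5 k3
      have h9 := hXo j' k6 k4
      have h10 := hX j (by omega)
      have h11 := hX j' (by omega)
      rw [HH_comm, HH_two h5 h6 (by omega) (cop_idx hab k2 k7.symm), HH_comm,
        HH_two h5 h6 (by omega) (cop_idx hab k2 k8.symm), mul_mul_mul_comm,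
        rho_eq hs _ h10 h11 (by omega), c8, c8, h8, h9]
      split_ifs <;> rfl
    · intro j j' k3 k4 k5 k6 k7
      have h8 := hXo j k5 k3
      have h9 := hXo j' k6 k4
      have h10 := hX j (by omega)
      have h11 := hX j' (by omega)
      rw [HH_odd (by omega) (by omega) (cop_idx hab (by omega) k7)]
      unfold rho
      rcases hs with rfl | rfl <;> split_ifs <;> first | rfl | omega
    · intro i
      obtain ⟨u, h5, h6, h7, -⟩ := hev (2 * i + 4) (by omega) (by omega)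
      have h8 := hXo (2 * i + 3) (by omega) (by omega)
      have h10 := hX (2 * i + 3) (by omega)
      have h11 : XX a b (2 * i + 3) % 2 = 1 := by omega
      rw [HH_comm, HH_two h5 h6 hb (cop_X_b hab _), HH_comm, HH_two h5 h6 h11
        (cop_idx hab (by omega) (by simp [show 2 * i + 4 = (2 * i + 3) + 1 from rfl])),
        HH_odd hb h11 (cop_X_b hab _).symm]
      have e1 : c8 b * c8 (XX a b (2 * i + 3)) = -1 := ev1 hb (by omega)
      have e2 : rho u b * rho u (XX a b (2 * i + 3)) * rho b (XX a b (2 * i + 3)) = -1 := by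
        unfold rho
        rcases hs with rfl | rfl <;> split_ifs <;> first | rfl | omega
      linear_combination (rho u b * rho u (XX a b (2 * i + 3)) * rho b (XX a b (2 * i + 3))) * e1 - e2
  · have h5 := h.T2 hm
    obtain ⟨u, h6, h7, h8, h9⟩ := hev (m + 1) (by omega) (by omega)
    have h10 := hXo m (by omega) hm2
    obtain ⟨i, rfl⟩ : ∃ i, m = i + 1 := ⟨m - 1, by omega⟩
    have h11 := hY8 i
    have h12 := hY (i + 1)
    rw [HH_odd (by omega) (by omega) (cop_X_Y hab (by omega) _),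
      HH_odd (by omega) (by omega) (cop_X_Y hab (by omega) _), rho_eq hs _ h12 hY00 (by omega),
      kap_pos hs hY00 (by rcases hs with rfl | rfl <;> omega),
      kap_pos hs h12 (by rcases hs with rfl | rfl <;> omega),
      HH_odd hb (by omega) (cop_Y_b hab 0).symm,
      HH_two h6 h7 (by omega) (cop_X_Y hab (by omega) _), HH_comm,
      HH_two h6 h7 hb (cop_X_b hab _)] at h5
    have e1 : rho b (YY a b 0) = 1 := by
      unfold rho
      rcases hs with rfl | rfl <;> split_ifs <;> first | rfl | omega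
    have e2 := ev2 hs h8 h12 hb0 h3 h7 (by omega)
    rw [e1] at h5
    have : (1 : ℤ) = -1 := by linear_combination e2 - h5
    omega

theorem exists_prim (hb : 0 < b) (hab : IsCoprime a b)
    (hs : (s = 1 ∧ 0 < a + b) ∨ (s = -1 ∧ a + 2 * b < 0))
    (hcl : (a % 2 = 1 ∧ a % 4 = b % 4) ∨ b % 4 = 2 ∨ (b % 4 = 0 ∧ s * a % 4 = 3) ∨
      ((a % 4 = 0 ∨ (a + b) % 4 = 0) ∧ s * b % 4 = 3) ∨ (a % 4 = 2 ∧ s * b % 4 = 1))
    {n : ℕ} (hn : 3 ≤ n) : ∃ q : ℕ, q.Prime ∧ q ≠ 2 ∧ (∀ k, 0 < k → k < n → ¬ (q : ℤ) ∣ XX a b k) ∧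
      Odd ((XX a b n).natAbs.factorization q) := by
  by_contra hcon
  have hs' : s = 1 ∨ s = -1 := by tauto
  have hX : ∀ k, 2 ≤ k → 0 < s * XX a b k := fun k hk => X_sign hb hs hk
  have hY := Y_sign hb hs
  have hne : ∀ k, 0 < k → XX a b k ≠ 0 := by
    intro k hk
    rcases (show k = 1 ∨ 2 ≤ k by omega) with rfl | hk
    · simp [XX_one]
    · intro e
      simpa [e] using hX k hk
  obtain ⟨m, hm⟩ := Nat.prod_primeFactors_dvd n
  rw [mul_comm] at hm
  have hm0 : 0 < m := Nat.pos_of_ne_zero (by rintro rfl; omega)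
  have hF : ∀ p ∈ n.primeFactors, p.Prime := fun p hp => Nat.prime_of_mem_primeFactors hp
  have hmF : ∀ p, p.Prime → p ∣ m → p ∈ n.primeFactors := fun p hp h =>
    Nat.mem_primeFactors.2 ⟨hp, h.trans (Dvd.intro _ hm.symm), by omega⟩
  have h : Ctx a b s m n.primeFactors := by
    refine ⟨hab, hs', hX, hm0, hF, Nat.nonempty_primeFactors.2 (by omega),
      isSquare_P hab hne hm0 hF hmF ?_⟩
    rw [← hm]
    intro q hq hd hp
    by_contra ho
    refine hcon ⟨q, hq, ?_, hp, Nat.not_even_iff_odd.1 ho⟩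
    rintro rfl
    have h1 := hp 2 (by omega) (by omega)
    rw [XX_two] at h1
    have h2 := X_odd (a := a) (b := b) (by omega) (n - 1)
    rw [show n - 1 + 1 = n by omega] at h2
    omega
  have hn' : 3 ≤ m * ∏ p ∈ n.primeFactors, p := hm ▸ hn
  have hpar : ¬ (a % 2 = 0 ∧ b % 2 = 0) := by
    rintro ⟨h1, h2⟩
    have := hab.isUnit_of_dvd' (x := 2) (by omega) (by omega)
    rw [Int.isUnit_iff] at this
    omega
  rcases Int.emod_two_eq_zero_or_one b with hb2 | hb2
  · exact false_I h hb hY hn' (by omega) (by rcases hs' with rfl | rfl <;> omega)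
  rcases Int.emod_two_eq_zero_or_one a with ha2 | ha2
  · exact false_II h hY hn' ha2 hb2 (by rcases hs' with rfl | rfl <;> omega)
  · exact false_III h hb hY hn' hmF ha2 hb2 (by rcases hs' with rfl | rfl <;> omega)

end Pool.Agent.Work.MP_969914_nt.QR
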