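import Pool.Agent.Work.MP_969914_nt.Q.Gal

/-! The symbols of `1 + x_j` modulo `x_K`; they need no information on the signs of the orbit. -/

set_option autoImplicit false

open IntermediateField Module

namespace Pool.Agent.Work.MP_969914_nt.QR

/-- The rules obeyed by the symbols. -/
structure Rules (g t : ℕ → ℕ → ℤ) : Prop where
  S : ∀ u K, 1 ≤ K → g (u + K) K = g u K
  T : ∀ u K, 1 ≤ u → 2 ≤ K → g u (K + u) = t u K * g u K
  N : ∀ u, 1 ≤ u → g u (u + 1) = 1
  O : ∀ u, g u 1 = 1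

namespace Rules

variable {g t : ℕ → ℕ → ℤ} (h : Rules g t)
include h

lemma S' (u q : ℕ) {K : ℕ} (hK : 1 ≤ K) : g (u + K * q) K = g u K := by
  induction q with
  | zero => simp
  | succ q ih => rw [show u + K * (q + 1) = u + K * q + K by ring, h.S _ _ hK, ih]

lemma md (u : ℕ) {K : ℕ} (hK : 1 ≤ K) : g u K = g (u % K) K := by
  conv_lhs => rw [← Nat.mod_add_div u K, h.S' _ _ hK]

lemma inv {β : ℕ → ℤ} (h2 : ∀ u, u % 2 = 1 → t u 2 = β (2 + u))
    (h3 : ∀ u K, 1 ≤ u → 3 ≤ K → (u % 2 = 1 ∨ K % 2 = 1) → t u K * β K = β (K + u)) :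
    ∀ (n u K x y : ℕ), u + K ≤ n → 3 ≤ K → u * y = K * x + 1 → 2 * y < K → g u K = β K := by
  intro n
  induction n with
  | zero => intro u K x y h1 h4; omega
  | succ n ih =>
    intro u K x y h1 hK e hy
    have hu : 1 ≤ u := by
      rcases Nat.eq_zero_or_pos u with rfl | hu
      · simp at e
      · exact hu
    rcases lt_or_ge u K with hlt | hge
    · obtain ⟨K', rfl⟩ : ∃ K', K = K' + u := ⟨K - u, by omega⟩
      have hx : 2 * x < u := by nlinarith
      have hxy : x < y := by nlinarith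
      obtain ⟨y', rfl⟩ : ∃ y', y = y' + x := ⟨y - x, by omega⟩
      have e' : u * y' = K' * x + 1 := by nlinarith
      have hy' : 1 ≤ y' := by omega
      rcases (show K' = 1 ∨ K' = 2 ∨ 3 ≤ K' by omega) with rfl | rfl | h3'
      · exfalso
        have : u ≤ u * y' := Nat.le_mul_of_pos_right _ hy'
        omega
      · have h5 : u % 2 = 1 := by
          rcases Nat.mod_two_eq_zero_or_one u with h5 | h5
          · have : (u * y') % 2 = 0 := by rw [Nat.mul_mod, h5]; simp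
            omega
          · exact h5
        rw [h.T u 2 hu le_rfl, h.md u (K := 2) (by norm_num), h5, h.N 1 le_rfl, mul_one, h2 u h5]
      · rw [h.T u K' hu (by omega), ih u K' x y' (by omega) h3' e' (by nlinarith), h3 u K' hu h3']
        by_contra hc
        have h5 : u % 2 = 0 := by omega
        have h6 : K' % 2 = 0 := by omega
        have : (u * y') % 2 = 0 := by rw [Nat.mul_mod, h5]; simp
        have : (K' * x) % 2 = 0 := by rw [Nat.mul_mod, h6]; simp
        omega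
    · obtain ⟨u', rfl⟩ : ∃ u', u = u' + K := ⟨u - K, by omega⟩
      have hy1 : 1 ≤ y := by
        rcases Nat.eq_zero_or_pos y with rfl | hy1
        · simp at e
        · exact hy1
      have hxy : y ≤ x := by
        by_contra hc
        have : K * (x + 1) ≤ K * y := Nat.mul_le_mul_left _ (by omega)
        nlinarith
      obtain ⟨x', rfl⟩ : ∃ x', x = x' + y := ⟨x - y, by omega⟩
      rw [h.S _ _ (by omega)]
      exact ih u' K x' y (by omega) hK (by nlinarith) hy

lemma gcd {D : ℕ} (hD : 2 ≤ D) {ν : ℕ → ℤ} (h0 : g 0 D = ν D)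
    (h1 : ∀ u K, 1 ≤ u → 1 ≤ K → D ∣ u → D ∣ K → t u K * ν K = ν (K + u)) :
    ∀ (n u K : ℕ), u + K ≤ n → 1 ≤ K → Nat.gcd u K = D → g u K = ν K := by
  intro n
  induction n with
  | zero => intro u K h1 h4; omega
  | succ n ih =>
    intro u K hn hK e
    rcases Nat.eq_zero_or_pos u with rfl | hu
    · rw [Nat.gcd_zero_left] at e; rw [e, h0]
    rcases lt_or_ge u K with hlt | hge
    · obtain ⟨K', rfl⟩ : ∃ K', K = K' + u := ⟨K - u, by omega⟩
      rw [Nat.gcd_add_self_right] at e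
      have h2 : D ∣ K' := e ▸ Nat.gcd_dvd_right _ _
      have h3 := Nat.le_of_dvd (by omega) h2
      rw [h.T u K' hu (by omega), ih u K' (by omega) (by omega) e,
        h1 u K' hu (by omega) (e ▸ Nat.gcd_dvd_left _ _) h2]
    · obtain ⟨u', rfl⟩ : ∃ u', u = u' + K := ⟨u - K, by omega⟩
      rw [Nat.gcd_add_self_left] at e
      rw [h.S _ _ hK]
      exact ih u' K (by omega) hK e

omit h in
lemma pair {m y p : ℕ} {F : Finset ℕ} (hm : 2 ≤ m) (hF : ∀ p ∈ F, p.Prime) (hp : p ∈ F) (hpm : p ∣ m)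
    (hy : Nat.Coprime y m)
    (e0 : ∀ u, u * y % (m * p) = 1 → g u m * g u (m * p) = -1)
    (e1 : ∀ u d, 2 ≤ d → d ≠ p → u * y % (m * d) = 1 → u * y % (m * d * p) = 1 →
      g u (m * d) * g u (m * d * p) = 1)
    (e2 : ∀ u d, 2 ≤ d → 2 ≤ Nat.gcd u (m * d) → Nat.gcd u (m * d * p) = Nat.gcd u (m * d) →
      g u (m * d) * g u (m * d * p) = 1) :
    ∃ u, ∏ S ∈ F.powerset, g u (m * ∏ p ∈ S, p) = -1 := by
  classical
  set A := F.filter fun q => ¬ q ∣ y with hA
  set B := F.filter fun q => q ∣ y with hB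
  have hp' := hF p hp
  have hpA : p ∈ A := Finset.mem_filter.2 ⟨hp, fun h => hp'.not_dvd_one (hy ▸ Nat.dvd_gcd h hpm)⟩
  have c1 : Nat.Coprime y (m * ∏ q ∈ A, q) := Nat.Coprime.mul_right hy
    (Nat.Coprime.prod_right fun q hq => ((hF q (Finset.mem_filter.1 hq).1).coprime_iff_not_dvd.2
      (Finset.mem_filter.1 hq).2).symm)
  have c2 : Nat.Coprime (∏ q ∈ B, q) (m * ∏ q ∈ A, q) := Nat.Coprime.prod_left fun q hq =>
    c1.coprime_dvd_left (Finset.mem_filter.1 hq).2
  have hM : 1 < m * ∏ q ∈ A, q := by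
    have : 0 < ∏ q ∈ A, q := Finset.prod_pos fun q hq => (hF q (Finset.mem_filter.1 hq).1).pos
    nlinarith
  obtain ⟨v, -, hv⟩ := Nat.exists_mul_mod_eq_one_of_coprime (Nat.Coprime.mul_left c2 c1) hM
  set u := (∏ q ∈ B, q) * v with hu
  have huy : u * y % (m * ∏ q ∈ A, q) = 1 := by rw [← hv, hu]; congr 1; ring
  have hmod : ∀ K, 2 ≤ K → K ∣ m * ∏ q ∈ A, q → u * y % K = 1 := by
    intro K hK hd
    rw [← Nat.mod_mod_of_dvd _ hd, huy]; exact Nat.mod_eq_of_lt hK
  have hup : Nat.Coprime u p := by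
    rw [Nat.coprime_comm, hp'.coprime_iff_not_dvd]
    intro h
    have := hmod p hp'.two_le (hpm.mul_right _)
    rw [Nat.mod_eq_zero_of_dvd (h.mul_right y)] at this
    omega
  have hn := Finset.notMem_erase p F
  refine ⟨u, ?_⟩
  rw [← Finset.insert_erase hp, Finset.prod_powerset_insert hn, ← Finset.prod_mul_distrib,
    Finset.prod_eq_single ∅]
  · simp only [Finset.prod_empty, mul_one, Finset.prod_insert (Finset.notMem_empty p)]
    exact e0 u (hmod _ (by have := hp'.two_le; nlinarith)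
      (Nat.mul_dvd_mul_left _ (Finset.dvd_prod_of_mem _ hpA)))
  · intro S hS hne
    have hS' := Finset.mem_powerset.1 hS
    have hpS : p ∉ S := fun h => hn (hS' h)
    have hSF : S ⊆ F := hS'.trans (Finset.erase_subset _ _)
    have hd := two_le_prod hF hSF (Finset.nonempty_iff_ne_empty.2 hne)
    rw [Finset.prod_insert hpS, mul_comm p, ← mul_assoc]
    by_cases hc : ∀ q ∈ S, ¬ q ∣ y
    · have h3 : insert p S ⊆ A := Finset.insert_subset hpA fun q hq =>
        Finset.mem_filter.2 ⟨hSF hq, hc q hq⟩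
      have h4 : (m * ∏ q ∈ S, q) * p ∣ m * ∏ q ∈ A, q := by
        rw [mul_assoc, mul_comm _ p, ← Finset.prod_insert (f := fun q => q) hpS]
        exact Nat.mul_dvd_mul_left _ (Finset.prod_dvd_prod_of_subset _ _ _ h3)
      have h5 : 2 ≤ m * ∏ q ∈ S, q := by nlinarith
      refine e1 u _ hd (fun e => ?_) (hmod _ h5 ((Dvd.intro _ rfl).trans h4))
        (hmod _ (by have := hp'.two_le; nlinarith) h4)
      obtain ⟨q, hq, h6⟩ := (Prime.dvd_finsetProd_iff hp'.prime _).1 (e ▸ dvd_rfl : p ∣ ∏ q ∈ S, q)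
      exact hpS ((Nat.prime_dvd_prime_iff_eq hp' (hF q (hSF hq))).1 h6 ▸ hq)
    · push Not at hc
      obtain ⟨q, hq, hqy⟩ := hc
      refine e2 u _ hd ?_ (Nat.Coprime.gcd_mul_right_cancel_right _ hup.symm)
      have h3 : q ∣ Nat.gcd u (m * ∏ q ∈ S, q) := Nat.dvd_gcd
        ((Finset.dvd_prod_of_mem _ (Finset.mem_filter.2 ⟨hSF hq, hqy⟩)).mul_right _)
        ((Finset.dvd_prod_of_mem _ hq).mul_left _)
      exact (hF q (hSF hq)).two_le.trans (Nat.le_of_dvd (Nat.gcd_pos_of_pos_right _ (by nlinarith)) h3)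
  · simp

lemma neg_one {u m : ℕ} (hm : 2 ≤ m) (e : u * (m - 1) % m = 1) : g u m = 1 := by
  obtain ⟨k, rfl⟩ : ∃ k, m = k + 1 := ⟨m - 1, by omega⟩
  have h1 : (u + 1) % (k + 1) = 0 := by
    have h2 : (u * k + (u + 1)) % (k + 1) = 1 := by
      rw [show u * k + (u + 1) = 1 + (k + 1) * u by ring, Nat.add_mul_mod_self_left]
      exact Nat.mod_eq_of_lt (by omega)
    rw [Nat.add_sub_cancel] at e
    have h3 := Nat.mod_lt (u + 1) (show 0 < k + 1 by omega)
    rw [Nat.add_mod, e] at h2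
    by_contra h4
    rcases (show 1 + (u + 1) % (k + 1) < k + 1 ∨ 1 + (u + 1) % (k + 1) = k + 1 by omega) with h5 | h5
    · rw [Nat.mod_eq_of_lt h5] at h2; omega
    · rw [h5, Nat.mod_self] at h2; omega
  have h2 : u % (k + 1) = k := by
    have h3 := Nat.mod_lt u (show 0 < k + 1 by omega)
    rw [Nat.add_mod, Nat.mod_eq_of_lt (show 1 < k + 1 by omega)] at h1
    by_contra h4
    rw [Nat.mod_eq_of_lt (by omega)] at h1
    omega
  rw [h.md u (by omega), h2, h.N k (by omega)]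

lemma inv' {β : ℕ → ℤ} (h2 : ∀ u, u % 2 = 1 → t u 2 = β (2 + u))
    (h3 : ∀ u K, 1 ≤ u → 3 ≤ K → (u % 2 = 1 ∨ K % 2 = 1) → t u K * β K = β (K + u))
    {u K y : ℕ} (hK : 3 ≤ K) (e : u * y % K = 1) (hy : 2 * y < K) : g u K = β K :=
  h.inv h2 h3 _ u K (u * y / K) y le_rfl hK (by rw [← e, Nat.div_add_mod]) hy

end Rules

lemma exists_prime_m {m : ℕ} {F : Finset ℕ} (hm : 2 ≤ m) (hmF : ∀ p, p.Prime → p ∣ m → p ∈ F) :
    ∃ p ∈ F, p ∣ m := by
  obtain ⟨p, hp, hd⟩ := Nat.exists_prime_and_dvd (show m ≠ 1 by omega)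
  exact ⟨p, hmF p hp hd, hd⟩

lemma coprime_pred {m : ℕ} (hm : 2 ≤ m) : Nat.Coprime (m - 1) m := by
  obtain ⟨k, rfl⟩ : ∃ k, m = k + 1 := ⟨m - 1, by omega⟩
  simp

theorem comb_ii {g : ℕ → ℕ → ℤ} (h : Rules g fun _ K => if K = 2 then -1 else 1) {θ θ' : ℤ}
    (hθ : θ * θ = 1) (hθ' : θ' * θ' = 1) (h0 : ∀ K, 3 ≤ K → g 0 K = θ) (h2 : g 0 2 = θ')
    {m : ℕ} {F : Finset ℕ} (hm : 0 < m) (hF : ∀ p ∈ F, p.Prime) (hne : F.Nonempty)
    (hmF : ∀ p, p.Prime → p ∣ m → p ∈ F) (hn : 3 ≤ m * ∏ p ∈ F, p) :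
    ∃ u, ∏ S ∈ F.powerset, g u (m * ∏ p ∈ S, p) = -1 := by
  have hi : ∀ {u K y : ℕ}, 3 ≤ K → u * y % K = 1 → 2 * y < K → g u K = -1 := fun hK e hy =>
    h.inv' (β := fun _ => -1) (fun _ _ => by simp) (fun u K _ hK _ => by
      simp [show K ≠ 2 by omega]) hK e hy
  have hg3 : ∀ u K, 1 ≤ K → 3 ≤ Nat.gcd u K → g u K = θ := fun u K hK hD =>
    h.gcd (ν := fun _ => θ) (by omega) (h0 _ hD) (fun u K _ hK _ hd => by
      have := Nat.le_of_dvd hK hd
      simp [show K ≠ 2 by omega]) _ u K le_rfl hK rfl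
  have hg2 : ∀ u K, 3 ≤ K → Nat.gcd u K = 2 → g u K = -θ' := fun u K hK hD => by
    have := h.gcd (D := 2) (ν := fun K => if K = 2 then θ' else -θ') le_rfl (by simp [h2])
      (fun u K hu hK _ hd => by
        have := Nat.le_of_dvd hK hd
        by_cases h : K = 2 <;> simp [h, show K + u ≠ 2 by omega, show u ≠ 0 by omega])
      _ u K le_rfl (by omega) hD
    simpa [show K ≠ 2 by omega] using this
  rcases (show m = 1 ∨ 2 ≤ m by omega) with rfl | hm2
  · by_cases h2F : 2 ∈ F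
    · refine ⟨2, ?_⟩
      have h3 := erase_ne rfl hn h2F
      have hF' : ∀ p ∈ F.erase 2, p.Prime := fun p hp => hF p (Finset.mem_of_mem_erase hp)
      have hn2 := Finset.notMem_erase 2 F
      have hodd : ∀ j, g 2 (2 * j + 3) = 1 := by
        intro j
        induction j with
        | zero => exact h.N 2 (by norm_num)
        | succ j ih =>
          rw [show 2 * (j + 1) + 3 = 2 * j + 3 + 2 by ring, h.T 2 _ (by norm_num) (by omega), ih]
          simp
      rw [← Finset.insert_erase h2F, Finset.prod_powerset_insert hn2,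
        prod_one_form h3 _ (w := 1) rfl fun S hS hne => by
          have e1 := two_le_prod hF' hS hne
          have e2 := odd_prod hF' hn2 hS
          rw [one_mul, show ∏ p ∈ S, p = 2 * ((∏ p ∈ S, p) / 2 - 1) + 3 by omega, hodd],
        prod_one_form h3 _ (w := -θ') (by rw [neg_mul_neg, hθ']) fun S hS hne => by
          have e1 := two_le_prod hF' hS hne
          rw [one_mul, Finset.prod_insert fun h => hn2 (hS h)]
          exact hg2 _ _ (by omega) (by simp)]
      simp only [Finset.prod_empty, mul_one, h.O, one_mul,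
        Finset.prod_insert (Finset.notMem_empty 2)]
      rw [show g 2 2 = g 0 2 from h.S 0 2 (by norm_num), h2, mul_neg, hθ']
    · refine ⟨1, ?_⟩
      rw [prod_one_form hne _ (w := -1) rfl fun S hS hne => by
        have e1 := two_le_prod hF hS hne
        have e2 := odd_prod hF h2F hS
        exact hi (y := 1) (by omega) (Nat.mod_eq_of_lt (by omega)) (by omega)]
      simp [h.O]
  obtain ⟨p, hp, hpm⟩ := exists_prime_m hm2 hmF
  have hp2 := (hF p hp).two_le
  refine Rules.pair hm2 hF hp hpm (coprime_pred hm2) (fun u e => ?_) (fun u d hd _ e e' => ?_)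
    fun u d hd hD e => ?_
  · have h1 : 2 * m ≤ m * p := by nlinarith
    rw [h.neg_one hm2 (by
      rw [← Nat.mod_mod_of_dvd _ (Dvd.intro p rfl), e]; exact Nat.mod_eq_of_lt hm2),
      hi (by omega) e (by omega), one_mul]
  · have h1 : 2 * m ≤ m * d := by nlinarith
    have h3 : m * d ≤ m * d * p := by nlinarith
    rw [hi (by omega) e (by omega), hi (by omega) e' (by omega)]; rfl
  · have h1 : 2 * m ≤ m * d := by nlinarith
    have h3 : m * d ≤ m * d * p := by nlinarith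
    rcases (show Nat.gcd u (m * d) = 2 ∨ 3 ≤ Nat.gcd u (m * d) by omega) with h4 | h4
    · rw [hg2 _ _ (by omega) h4, hg2 _ _ (by omega) (e.trans h4), neg_mul_neg, hθ']
    · rw [hg3 _ _ (by omega) h4, hg3 _ _ (by omega) (e ▸ h4), hθ]

theorem comb_i {g : ℕ → ℕ → ℤ}
    (h : Rules g fun u K => if u % 2 = 1 ∨ K = 2 then -1 else 1) {θ θ' : ℤ}
    (hθ : θ * θ = 1) (hθ' : θ' * θ' = 1) (h0 : ∀ K, 3 ≤ K → K % 2 = 1 → g 0 K = θ)
    (h4 : ∀ K, 3 ≤ K → K % 2 = 0 → g 0 K = θ') (h2 : g 0 2 = -θ')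
    {m : ℕ} {F : Finset ℕ} (hm : 0 < m) (hF : ∀ p ∈ F, p.Prime) (hne : F.Nonempty)
    (hmF : ∀ p, p.Prime → p ∣ m → p ∈ F) (hn : 3 ≤ m * ∏ p ∈ F, p) :
    ∃ u, ∏ S ∈ F.powerset, g u (m * ∏ p ∈ S, p) = -1 := by
  have hi : ∀ {u K y : ℕ}, 3 ≤ K → u * y % K = 1 → 2 * y < K →
      g u K = if K % 2 = 1 then -1 else 1 := fun hK e hy =>
    h.inv' (β := fun K => if K % 2 = 1 then -1 else 1) (fun u hu => by
      simp [show (2 + u) % 2 = 1 by omega]) (fun u K _ hK _ => by
      split_ifs <;> first | rfl | omega) hK e hy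
  have hg3 : ∀ u K, 1 ≤ K → 2 ≤ Nat.gcd u K → Nat.gcd u K % 2 = 1 →
      g u K = if K % 2 = 1 then θ else -θ := fun u K hK hD ho =>
    h.gcd (ν := fun K => if K % 2 = 1 then θ else -θ) hD (by rw [h0 _ (by omega) ho, if_pos ho])
      (fun u K _ hK _ hd => by
        have := Nat.le_of_dvd hK hd
        split_ifs <;> first | omega | simp) _ u K le_rfl hK rfl
  have hg2 : ∀ u K, 3 ≤ K → 2 ≤ Nat.gcd u K → Nat.gcd u K % 2 = 0 → g u K = θ' :=
    fun u K hK hD ho => by
    have := h.gcd (ν := fun K => if K = 2 then -θ' else θ') hD (by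
        split_ifs with h5
        · rw [h5, h2]
        · exact h4 _ (by omega) ho)
      (fun u' K' hu hK' hd' hd => by
        have := Nat.le_of_dvd hK' hd
        have : 2 ∣ u' := (Nat.dvd_of_mod_eq_zero ho).trans hd'
        split_ifs <;> first | omega | simp)
      _ u K le_rfl (by omega) rfl
    simpa [show K ≠ 2 by omega] using this
  rcases (show m = 1 ∨ m = 2 ∨ 3 ≤ m by omega) with rfl | rfl | hm3
  · refine ⟨1, ?_⟩
    have hodd : ∀ F' : Finset ℕ, (∀ p ∈ F', p.Prime) → 2 ∉ F' → F'.Nonempty →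
        ∏ S ∈ F'.powerset, g 1 (1 * ∏ p ∈ S, p) = -1 := by
      intro F' hF' hn2 hne'
      rw [prod_one_form hne' _ (w := -1) rfl fun S hS hne => by
        have e1 := two_le_prod hF' hS hne
        have e2 := odd_prod hF' hn2 hS
        rw [hi (y := 1) (by omega) (Nat.mod_eq_of_lt (by omega)) (by omega), if_pos (by omega)]]
      simp [h.O]
    by_cases h2F : 2 ∈ F
    · have h3 := erase_ne rfl hn h2F
      have hF' : ∀ p ∈ F.erase 2, p.Prime := fun p hp => hF p (Finset.mem_of_mem_erase hp)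
      have hn2 := Finset.notMem_erase 2 F
      rw [← Finset.insert_erase h2F, Finset.prod_powerset_insert hn2, hodd _ hF' hn2 h3,
        prod_one_form h3 _ (w := 1) rfl fun S hS hne => by
          have e1 := two_le_prod hF' hS hne
          rw [one_mul, Finset.prod_insert fun h => hn2 (hS h),
            hi (y := 1) (by omega) (Nat.mod_eq_of_lt (by omega)) (by omega), if_neg (by omega)]]
      simp [h.N 1 le_rfl]
    · exact hodd F hF h2F hne
  · refine ⟨0, ?_⟩
    rw [prod_one_form hne _ hθ' fun S hS hne => by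
      have e1 := two_le_prod hF hS hne
      exact h4 _ (by omega) (by omega)]
    simp [h2, hθ']
  have hpar : ∀ u d p, 2 ≤ d → 2 ≤ p → (m % 2 = 0 ∨ p % 2 = 1) → 2 ≤ Nat.gcd u (m * d) →
      Nat.gcd u (m * d * p) = Nat.gcd u (m * d) → g u (m * d) * g u (m * d * p) = 1 := by
    intro u d p hd hp2 hp hD e
    have h1 : 2 * m ≤ m * d := by nlinarith
    have h3 : m * d ≤ m * d * p := by nlinarith
    rcases Nat.mod_two_eq_zero_or_one (Nat.gcd u (m * d)) with h5 | h5
    · rw [hg2 _ _ (by omega) hD h5, hg2 _ _ (by omega) (e ▸ hD) (e ▸ h5), hθ']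
    · have h6 : m * d * p % 2 = m * d % 2 := by
        rcases hp with hp | hp
        · rw [mul_assoc, Nat.mul_mod, Nat.mul_mod m d, hp]; simp
        · rw [Nat.mul_mod, hp]; simp
      rw [hg3 _ _ (by omega) hD h5, hg3 _ _ (by omega) (e ▸ hD) (e ▸ h5), h6]
      split_ifs <;> simp [hθ]
  rcases Nat.mod_two_eq_zero_or_one m with hm2 | hm2
  · refine Rules.pair (y := m + 1) (p := 2) (by omega) hF (hmF 2 Nat.prime_two (by omega)) (by omega)
      (by simp) (fun u e => ?_) (fun u d hd hc e e' => ?_)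
      fun u d hd hD e => hpar u d 2 hd le_rfl (Or.inl hm2) hD e
    · obtain ⟨k, rfl⟩ : ∃ k, m = 2 * k + 4 := ⟨m / 2 - 2, by omega⟩
      have h5 : u % ((2 * k + 4) * 2) = 2 * k + 5 := by
        have e1 : (u * (2 * k + 4 + 1) * (2 * k + 5)) % ((2 * k + 4) * 2) = 2 * k + 5 := by
          rw [Nat.mul_mod, e, one_mul, Nat.mod_mod]; exact Nat.mod_eq_of_lt (by omega)
        rwa [show u * (2 * k + 4 + 1) * (2 * k + 5) = u + (2 * k + 4) * 2 * (u * (k + 3)) by ring,
          Nat.add_mul_mod_self_left] at e1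
      have h6 : u % (2 * k + 4) = 1 := by
        rw [← Nat.mod_mod_of_dvd _ (Dvd.intro 2 rfl), h5,
          show 2 * k + 5 = 1 + (2 * k + 4) by ring, Nat.add_mod_right]
        exact Nat.mod_eq_of_lt (by omega)
      have hodd : ∀ j, g 2 (2 * j + 3) = 1 := by
        intro j
        induction j with
        | zero => exact h.N 2 (by norm_num)
        | succ j ih =>
          rw [show 2 * (j + 1) + 3 = 2 * j + 3 + 2 by ring, h.T 2 _ (by norm_num) (by omega), ih]
          simp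
      rw [hi (y := 1) (by omega) (by rw [mul_one, h6]) (by omega), if_neg (by omega),
        h.md u (by omega), h5, show (2 * k + 4) * 2 = 2 * k + 3 + (2 * k + 5) by ring,
        h.T _ _ (by omega) (by omega), if_pos (Or.inl (by omega)),
        show 2 * k + 5 = 2 + (2 * k + 3) by ring, h.S _ _ (by omega), hodd]
      rfl
    · have h1 : m * 3 ≤ m * d := Nat.mul_le_mul_left _ (by omega)
      have h3 : m * d % 2 = 0 := by rw [Nat.mul_mod, hm2]; simp
      rw [hi (by omega) e (by omega), hi (by omega) e' (by omega), if_neg (by omega),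
        if_neg (by omega)]
      rfl
  · obtain ⟨p, hp, hpm⟩ := exists_prime_m (by omega) hmF
    have hp2 := (hF p hp).two_le
    have hpo : p % 2 = 1 := Nat.odd_iff.1 ((Nat.odd_iff.2 hm2).of_dvd_nat hpm)
    refine Rules.pair (by omega) hF hp hpm (coprime_pred (by omega)) (fun u e => ?_)
      (fun u d hd hc e e' => ?_) fun u d hd hD e => hpar u d p hd hp2 (Or.inr hpo) hD e
    · have h1 : 2 * m ≤ m * p := by nlinarith
      rw [h.neg_one (by omega) (by
        rw [← Nat.mod_mod_of_dvd _ (Dvd.intro p rfl), e]; exact Nat.mod_eq_of_lt (by omega)),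
        hi (by omega) e (by omega), one_mul, if_pos (by rw [Nat.mul_mod, hm2, hpo])]
    · have h1 : 2 * m ≤ m * d := by nlinarith
      have h3 : m * d ≤ m * d * p := by nlinarith
      rw [hi (by omega) e (by omega), hi (by omega) e' (by omega),
        show m * d * p % 2 = m * d % 2 by rw [Nat.mul_mod, hpo]; simp]
      split_ifs <;> rfl

/-- The numerators of `1 + f^(u+1)(0) / c`. -/
def ZZ (a b : ℤ) (u : ℕ) : ℤ := BB b u + XX a b (u + 1)

/-- The symbol of `1 + f^(u+1)(0) / c` modulo the `K`-th numerator. -/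
def GG (a b : ℤ) (u K : ℕ) : ℤ := JJ (ZZ a b u * BB b u) (XX a b K)

variable {a b : ℤ}

lemma G_S (hab : IsCoprime a b) (u K : ℕ) (hK : 1 ≤ K) : GG a b (u + K) K = GG a b u K := by
  have hc := cop_X_b' hab (k := K) hK
  have h1 : XX a b K ∣ ZZ a b (u + K) * BB b (u + K) * (BB b u * BB b u) -
      ZZ a b u * BB b u * (BB b (u + K) * BB b (u + K)) := by
    have := (per_L' (a := a) (b := b) K u).mul_left (BB b (u + K) * BB b u)
    rw [add_comm K u] at this
    have e : ZZ a b (u + K) * BB b (u + K) * (BB b u * BB b u) -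
        ZZ a b u * BB b u * (BB b (u + K) * BB b (u + K)) = BB b (u + K) * BB b u *
        (XX a b (u + K + 1) * BB b u - XX a b (u + 1) * BB b (u + K)) := by
      rw [ZZ, ZZ]; ring
    rw [e]; exact this
  have h2 := JJ_congr h1
  rwa [JJ_mul_left _ (_ * _), JJ_mul_left _ (_ * _), JJ_mul_left (BB b u) (BB b u),
    JJ_mul_left (BB b (u + K)) (BB b (u + K)), JJ_sq (cop_B hc _).symm, JJ_sq (cop_B hc _).symm,
    mul_one, mul_one] at h2

lemma G_N (hab : IsCoprime a b) (u : ℕ) : GG a b u (u + 1) = 1 := by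
  rw [GG, JJ_congr (U' := BB b u * BB b u) ⟨BB b u, by rw [ZZ]; ring⟩, JJ_mul_left,
    JJ_sq (cop_B (cop_X_b hab u) _).symm]

lemma G_O (u : ℕ) : GG a b u 1 = 1 := by rw [GG, XX_one, JJ_one_right]

lemma G_zero (K : ℕ) : GG a b 0 K = JJ 2 (XX a b K) := by
  rw [GG, ZZ, zero_add, XX_one]; rfl

lemma Z_pos (hb : 0 < b) (h : 0 < a + 2 * b) (u : ℕ) : 0 < ZZ a b u := by
  have key : ∀ k, -BB b k < XX a b (k + 1) ∧ (a < 0 → XX a b (k + 1) ≤ BB b k) := by
    intro k
    induction k with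
    | zero => rw [XX_one]; exact ⟨by simp [BB], fun _ => le_rfl⟩
    | succ k ih =>
      have h1 := B_pos hb k
      have h2 : 0 < BB b k ^ 2 := pow_pos h1 2
      have h3 := sq_nonneg (XX a b (k + 1))
      rw [XX_succ (k + 1), BB_succ]
      refine ⟨?_, fun ha => by nlinarith⟩
      rcases lt_or_ge a 0 with ha | ha
      · have h4 : XX a b (k + 1) ^ 2 ≤ BB b k ^ 2 := sq_le_sq' ih.1.le (ih.2 ha)
        nlinarith
      · nlinarith
  have := (key u).1
  rw [ZZ]; omega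

lemma G_T (hab : IsCoprime a b) {u K : ℕ} (hu : 1 ≤ u) (hK : 2 ≤ K) {r r' w w' t : ℤ}
    (h1 : JJ (ZZ a b u) (XX a b (K + u)) = r * JJ (XX a b (K + u)) (ZZ a b u))
    (h2 : JJ (ZZ a b u) (XX a b K) = r' * JJ (XX a b K) (ZZ a b u))
    (h3 : HH b (XX a b (K + u)) = w) (h4 : HH b (XX a b K) = w') (ht : r * w = t * (r' * w')) :
    GG a b u (K + u) = t * GG a b u K := by
  obtain ⟨u, rfl⟩ : ∃ j, u = j + 1 := ⟨u - 1, by omega⟩
  obtain ⟨K, rfl⟩ : ∃ j, K = j + 2 := ⟨K - 2, by omega⟩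
  have hZ : IsCoprime (ZZ a b (u + 1)) b := by
    rw [ZZ, BB_succ, add_comm]; exact (cop_X_b hab _).add_mul_left_left _
  have h5 : JJ (XX a b (K + 2 + (u + 1))) (ZZ a b (u + 1)) =
      JJ (XX a b (K + 2)) (ZZ a b (u + 1)) := by
    have := Q_iter (a := a) (b := b) (V := ZZ a b (u + 1)) (k := u + 2) (j := 1)
      ⟨b * (XX a b (u + 2) - BB b (u + 1)), by
        rw [ZZ, XX_one, BB_succ (u + 1), BB_succ 0]; simp only [BB]; ring⟩ K
    refine JJ_of_L (k := u + 1 + K) (j := K) hZ ?_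
    convert this using 3 <;> ring
  have h6 : ∀ k, JJ b (XX a b (k + 2)) = HH b (XX a b (k + 2)) * JJ a b := fun k => by
    rw [JJ_HH (cop_X_b hab _).symm, J_X_b hab]
  have h7 := h6 (K + u + 1)
  rw [show K + u + 1 + 2 = K + 2 + (u + 1) by ring] at h7
  rw [GG, GG, JJ_mul_left, JJ_mul_left, JJ_B (cop_X_b' hab (by omega)), JJ_B (cop_X_b hab _), h1, h2,
    h5, h7, h6, h3, h4]
  linear_combination (JJ (XX a b (K + 2)) (ZZ a b (u + 1)) * JJ a b) * ht

lemma rho_pos {u : ℤ} (hu : 0 < u) (v : ℤ) :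
    rho u v = if u % 4 = 3 ∧ v % 4 = 3 then -1 else 1 := by
  rw [rho, if_neg (show ¬ (u < 0 ∧ v < 0) by omega), mul_one]

lemma rho_pos' (u : ℤ) {v : ℤ} (hv : 0 < v) :
    rho u v = if u % 4 = 3 ∧ v % 4 = 3 then -1 else 1 := by
  rw [rho, if_neg (show ¬ (u < 0 ∧ v < 0) by omega), mul_one]

lemma c8_sq (v : ℤ) : c8 v * c8 v = 1 := by unfold c8; split_ifs <;> rfl

lemma rec_oe {z x X : ℤ} (hX : X = 2 * x) (hz : z % 2 = 1) (hx : x % 2 = 1) :
    JJ z X = rho z x * c8 z * JJ X z := by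
  rw [hX, JJ_two_mul, JJ_mul_left, JJ_two hz, JJ_recip hz hx]
  linear_combination (-(rho z x * JJ x z)) * c8_sq z

lemma rec_eo {z Z x : ℤ} (hZ : Z = 2 * z) (hz : z % 2 = 1) (hx : x % 2 = 1) :
    JJ Z x = c8 x * rho z x * JJ x Z := by
  rw [hZ, JJ_two_mul, JJ_mul_left, JJ_two hx, JJ_recip hz hx, mul_assoc]

lemma rec_ee {z Z x X : ℤ} (hZ : Z = 2 * z) (hX : X = 2 * x) (hz : z % 2 = 1) (hx : x % 2 = 1) :
    JJ Z X = c8 x * rho z x * c8 z * JJ X Z := by
  rw [hZ, hX, JJ_two_mul, JJ_two_mul, JJ_mul_left, JJ_mul_left, JJ_two hx, JJ_two hz,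
    JJ_recip hz hx]
  linear_combination (-(c8 x * rho z x * JJ x z)) * c8_sq z

lemma rules_ii (hab : IsCoprime a b) (hb0 : 0 < b) (h : 0 < a + 2 * b) (ha : a % 2 = 1)
    (hb : b % 4 = 2) : Rules (GG a b) fun _ K => if K = 2 then -1 else 1 := by
  refine ⟨G_S hab, fun u K hu hK => ?_, fun u _ => G_N hab u, G_O⟩
  obtain ⟨β, hβ⟩ : ∃ β, b = 2 * β := ⟨b / 2, by omega⟩
  have hZ0 := Z_pos hb0 h u
  have hZ : ZZ a b u % 4 = a % 4 := by
    rcases (show u = 1 ∨ 2 ≤ u by omega) with rfl | h2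
    · rw [ZZ, XX_two, BB_succ]; simp only [BB]; omega
    · obtain ⟨j, rfl⟩ : ∃ j, u = j + 2 := ⟨u - 2, by omega⟩
      have := B_eight (b := b) (by omega) j
      have := X_I ha (b := b) (by omega) (k := j + 2 + 1) (by omega)
      rw [ZZ]; omega
  have h1 := X_I ha (b := b) (by omega) (k := K + u) (by omega)
  have h2 : XX a b K % 8 = (if K = 2 then a + b else a) % 8 := by
    split_ifs with e
    · rw [e, XX_two]
    · exact X_I ha (by omega) (by omega)
  have h3 : XX a b K % 2 = 1 := by split_ifs at h2 <;> omega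
  refine G_T hab hu hK (JJ_recip (by omega) (by omega)) (JJ_recip (by omega) h3)
    (HH_two hβ (by omega) (by omega) (cop_X_b' hab (by omega)).symm)
    (HH_two hβ (by omega) h3 (cop_X_b' hab (by omega)).symm) ?_
  rw [rho_pos hZ0, rho_pos hZ0, rho_pos (show 0 < β by omega), rho_pos (show 0 < β by omega)]
  unfold c8
  split_ifs at h2 ⊢ <;> first | rfl | omega

lemma X_half (ha : a % 2 = 1) (hb : b % 2 = 1) (h4 : a % 4 = b % 4) {g : ℤ} (hg : a + b = 2 * g)
    {K : ℕ} (hK : 2 ≤ K) (he : K % 2 = 0) :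
    ∃ x, XX a b K = 2 * x ∧ x % 8 = (if K = 2 then g else g + 4) % 8 := by
  split_ifs with e
  · exact ⟨g, by rw [e, XX_two, hg], rfl⟩
  · obtain ⟨w, h1, h2⟩ := X_u ha hb (K / 2 - 2)
    rw [show 2 * (K / 2 - 2) + 4 = K by omega, XX_two, hg] at h1
    obtain ⟨w', rfl⟩ : ∃ w', w = 8 * w' + 5 := ⟨w / 8, by omega⟩
    refine ⟨g * (8 * w' + 5), by rw [h1]; ring, ?_⟩
    rw [show g * (8 * w' + 5) = 8 * (g * w') + 5 * g by ring]
    omega

lemma rules_i (hab : IsCoprime a b) (hb0 : 0 < b) (h : 0 < a + 2 * b) (ha : a % 2 = 1)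
    (h4 : a % 4 = b % 4) : Rules (GG a b) fun u K => if u % 2 = 1 ∨ K = 2 then -1 else 1 := by
  refine ⟨G_S hab, fun u K hu hK => ?_, fun u _ => G_N hab u, G_O⟩
  have hb : b % 2 = 1 := by omega
  obtain ⟨g, hg⟩ : ∃ g, a + b = 2 * g := ⟨(a + b) / 2, by omega⟩
  have hZ0 := Z_pos hb0 h u
  have hB : BB b u % 8 = b % 8 := by
    obtain ⟨j, rfl⟩ : ∃ j, u = j + 1 := ⟨u - 1, by omega⟩
    exact B_mod hb j
  have c1 := cop_X_b' hab (k := K + u) (by omega)
  have c2 := cop_X_b' hab (k := K) (by omega)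
  have hab8 : (a % 8 = 1 ∨ a % 8 = 3 ∨ a % 8 = 5 ∨ a % 8 = 7) ∧
      (b % 8 = 1 ∨ b % 8 = 3 ∨ b % 8 = 5 ∨ b % 8 = 7) := by omega
  rcases Nat.mod_two_eq_zero_or_one u with hu2 | hu2
  · have h1 := X_III_odd ha hb (k := u + 1) (by omega) (by omega)
    obtain ⟨z, hz⟩ : ∃ z, ZZ a b u = 2 * z := ⟨ZZ a b u / 2, by rw [ZZ]; omega⟩
    have hz2 : z % 2 = 1 := by rw [ZZ] at hz; omega
    have hz0 : 0 < z := by omega
    rcases Nat.mod_two_eq_zero_or_one K with hK2 | hK2
    · obtain ⟨x, e1, e2⟩ := X_half ha hb h4 hg (K := K + u) (by omega) (by omega)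
      obtain ⟨x', e3, e4⟩ := X_half ha hb h4 hg hK hK2
      rw [if_neg (by omega)] at e2
      have e5 : x' % 4 = x % 4 := by split_ifs at e4 <;> omega
      refine G_T hab hu hK (rec_ee hz e1 hz2 (by omega)) (rec_ee hz e3 hz2 (by omega))
        ((HH_comm _ _).trans (HH_two e1 (by omega) hb c1))
        ((HH_comm _ _).trans (HH_two e3 (by omega) hb c2)) ?_
      rw [rho_pos hz0, rho_pos hz0, rho_pos' _ hb0, rho_pos' _ hb0, e5]
      have e6 : c8 x = (if u % 2 = 1 ∨ K = 2 then -1 else 1) * c8 x' := by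
        unfold c8
        split_ifs at e4 ⊢ <;> first | rfl | omega
      rw [e6]; ring
    · have e1 := X_III_odd ha hb (k := K + u) (by omega) (by omega)
      have e2 := X_III_odd ha hb (k := K) (by omega) hK2
      refine G_T hab hu hK (rec_eo hz hz2 (by omega)) (rec_eo hz hz2 (by omega))
        (HH_odd hb (by omega) c1.symm) (HH_odd hb (by omega) c2.symm) ?_
      rw [rho_pos hz0, rho_pos hz0, rho_pos hb0, rho_pos hb0, if_neg (show ¬ (u % 2 = 1 ∨ K = 2) by
        omega), one_mul, c8, c8, e1, e2, show XX a b (K + u) % 4 = XX a b K % 4 by omega]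
  · have h1 := X_III_even ha hb (k := u + 1) (by omega) (by omega)
    have hZ : ZZ a b u % 8 = (a + 2 * b) % 8 := by rw [ZZ]; omega
    have key : ∀ x y : ℤ, x % 4 = g % 4 → y % 4 = b % 4 →
        rho (ZZ a b u) x * c8 (ZZ a b u) * (c8 b * rho x b) = -(rho (ZZ a b u) y * rho b y) := by
      intro x y hx hy
      rw [rho_pos hZ0, rho_pos hZ0, rho_pos' _ hb0, rho_pos hb0, hx, hy, c8, c8, hZ]
      split_ifs <;> first | rfl | omega
    rw [if_pos (Or.inl hu2)]
    rcases Nat.mod_two_eq_zero_or_one K with hK2 | hK2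
    · have e1 := X_III_odd ha hb (k := K + u) (by omega) (by omega)
      obtain ⟨x', e3, e4⟩ := X_half ha hb h4 hg hK hK2
      have e5 : x' % 4 = g % 4 := by split_ifs at e4 <;> omega
      refine G_T hab hu hK (JJ_recip (by omega) (by omega)) (rec_oe e3 (by omega) (by omega))
        (HH_odd hb (by omega) c1.symm) ((HH_comm _ _).trans (HH_two e3 (by omega) hb c2)) ?_
      rw [key x' (XX a b (K + u)) e5 (by omega)]; ring
    · have e1 := X_III_odd ha hb (k := K) (by omega) hK2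
      obtain ⟨x, e3, e4⟩ := X_half ha hb h4 hg (K := K + u) (by omega) (by omega)
      have e5 : x % 4 = g % 4 := by split_ifs at e4 <;> omega
      refine G_T hab hu hK (rec_oe e3 (by omega) (by omega)) (JJ_recip (by omega) (by omega))
        ((HH_comm _ _).trans (HH_two e3 (by omega) hb c1)) (HH_odd hb (by omega) c2.symm) ?_
      rw [key x (XX a b K) e5 (by omega)]; ring

lemma X_ne (hab : IsCoprime a b) (hcl : (a % 2 = 1 ∧ a % 4 = b % 4) ∨ b % 4 = 2) {k : ℕ}
    (hk : 0 < k) : XX a b k ≠ 0 := by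
  rcases hcl with ⟨ha, h4⟩ | hb
  · rcases (show k = 1 ∨ (3 ≤ k ∧ k % 2 = 1) ∨ k % 2 = 0 by omega) with rfl | h | h
    · simp [XX_one]
    · have := X_III_odd ha (b := b) (by omega) h.1 h.2
      omega
    · have := X_III_even ha (b := b) (by omega) hk h
      omega
  · have ha : a % 2 = 1 := by
      by_contra ha
      have := hab.isUnit_of_dvd' (x := 2) (by omega) (by omega)
      rw [Int.isUnit_iff] at this
      omega
    have := X_odd (a := a) (b := b) (by omega) (k - 1)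
    rw [show k - 1 + 1 = k by omega] at this
    omega

theorem exists_prim' (hb : 0 < b) (hab : IsCoprime a b)
    (hcl : (a % 2 = 1 ∧ a % 4 = b % 4) ∨ b % 4 = 2) {n : ℕ} (hn : 3 ≤ n) :
    ∃ q : ℕ, q.Prime ∧ q ≠ 2 ∧ (∀ k, 0 < k → k < n → ¬ (q : ℤ) ∣ XX a b k) ∧
      Odd ((XX a b n).natAbs.factorization q) := by
  have ha : a % 2 = 1 := by
    by_contra ha
    have := hab.isUnit_of_dvd' (x := 2) (by omega) (by omega)
    rw [Int.isUnit_iff] at this
    omega
  rcases lt_or_ge (a + 2 * b) 0 with h | h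
  · exact exists_prim (s := -1) hb hab (Or.inr ⟨rfl, h⟩) (by tauto) hn
  have h0 : 0 < a + 2 * b := by omega
  by_contra hcon
  have hne : ∀ k, 0 < k → XX a b k ≠ 0 := fun k hk => X_ne hab hcl hk
  obtain ⟨m, hm⟩ := Nat.prod_primeFactors_dvd n
  rw [mul_comm] at hm
  have hm0 : 0 < m := Nat.pos_of_ne_zero (by rintro rfl; omega)
  have hF : ∀ p ∈ n.primeFactors, p.Prime := fun p hp => Nat.prime_of_mem_primeFactors hp
  have hmF : ∀ p, p.Prime → p ∣ m → p ∈ n.primeFactors := fun p hp h =>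
    Nat.mem_primeFactors.2 ⟨hp, h.trans (Dvd.intro _ hm.symm), by omega⟩
  have hFne : n.primeFactors.Nonempty := Nat.nonempty_primeFactors.2 (by omega)
  obtain ⟨r, hr⟩ := isSquare_P hab hne hm0 hF hmF (by
    rw [← hm]
    intro q hq hd hp
    by_contra ho
    refine hcon ⟨q, hq, ?_, hp, Nat.not_even_iff_odd.1 ho⟩
    rintro rfl
    have h1 := hp 2 (by omega) (by omega)
    rw [XX_two] at h1
    have h2 := X_odd (a := a) (b := b) (by omega) (n - 1)
    rw [show n - 1 + 1 = n by omega] at h2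
    omega)
  have hn' : 3 ≤ m * ∏ p ∈ n.primeFactors, p := hm ▸ hn
  have hS : ∀ S ∈ n.primeFactors.powerset, XX a b (m * ∏ p ∈ S, p) ≠ 0 := fun S hS =>
    hne _ (Nat.mul_pos hm0 (Finset.prod_pos fun p hp => (hF p (Finset.mem_powerset.1 hS hp)).pos))
  have hr0 : (r : ℤ) ≠ 0 := by
    rintro e
    rw [Nat.cast_eq_zero.1 e, mul_zero, Int.natAbs_eq_zero] at hr
    exact Finset.prod_ne_zero_iff.2 hS hr
  obtain ⟨u, hu⟩ : ∃ u, ∏ S ∈ n.primeFactors.powerset, GG a b u (m * ∏ p ∈ S, p) = -1 := by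
    rcases hcl with ⟨-, h4⟩ | hb4
    · have hb2 : b % 2 = 1 := by omega
      obtain ⟨g, hg⟩ : ∃ g, a + b = 2 * g := ⟨(a + b) / 2, by omega⟩
      refine comb_i (rules_i hab hb h0 ha h4) (c8_sq (2 * a + 3 * b)) (c8_sq (g + 4))
        (fun K hK ho => ?_) (fun K hK he => ?_) ?_ hm0 hF hFne hmF hn'
      · have := X_III_odd ha hb2 hK ho
        rw [G_zero, JJ_two (by omega), c8, c8, this]
      · obtain ⟨x, e1, e2⟩ := X_half ha hb2 h4 hg (K := K) (by omega) he
        rw [if_neg (by omega)] at e2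
        rw [G_zero, e1, JJ_two_mul, JJ_two (by omega), c8, c8, e2]
      · rw [G_zero, XX_two, hg, JJ_two_mul, JJ_two (by omega)]
        unfold c8
        split_ifs <;> first | rfl | omega
    · refine comb_ii (rules_ii hab hb h0 ha hb4) (c8_sq a) (c8_sq (a + b)) (fun K hK => ?_) ?_
        hm0 hF hFne hmF hn'
      · have := X_I ha (b := b) (by omega) hK
        rw [G_zero, JJ_two (by omega), c8, c8, this]
      · rw [G_zero, XX_two, JJ_two (by omega)]
  simp only [GG] at hu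
  rw [← JJ_prod_right _ _ hS, ← JJ_natAbs, hr, Nat.cast_mul, JJ_mul_right _ hr0 hr0] at hu
  nlinarith [mul_self_nonneg (JJ (ZZ a b u * BB b u) r)]

theorem main' {Ω : Type} [Field Ω] [CharZero Ω] [IsAlgClosed Ω] [Algebra ℚ Ω]
    [Algebra.IsAlgebraic ℚ Ω] (c : ℚ)
    (hcl : (c.num % 2 = 1 ∧ c.num % 4 = c.den % 4) ∨ (c.den : ℤ) % 4 = 2)
    (h1 : ¬ IsSquare (-c)) (h2 : ¬ IsSquare (c ^ 2 + c))
    {d : ℕ} (hd : d = 2 ∨ (d = 1 ∧ ¬ IsSquare (-1 - c))) (n : ℕ) :
    2 ^ (2 ^ n - 1) ≤ d * finrank ℚ (adjoin ℚ {z : Ω | (fun x => x ^ 2 + (c : Ω))^[n] z = 0}) := by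
  have hb : (0 : ℤ) < c.den := by exact_mod_cast c.den_pos
  have hab : IsCoprime c.num (c.den : ℤ) := Int.isCoprime_iff_gcd_eq_one.2 c.reduced
  have e1 : algebraMap ℚ Ω c = (c.num : Ω) / ((c.den : ℤ) : Ω) := by
    rw [eq_ratCast, Rat.cast_def, Int.cast_natCast]
  have e2 : Set.range (algebraMap ℚ Ω) = Set.range ((↑) : ℚ → Ω) := by
    congr 1; ext x; exact eq_ratCast _ x
  have e3 : ({z : Ω | (fun x => x ^ 2 + (c : Ω))^[n] z = 0} : Set Ω) =
      pre (algebraMap ℚ Ω c) n 0 := by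
    ext z; rw [Finset.mem_coe, mem_pre, eq_ratCast]; rfl
  rw [e3]
  refine tower two_ne_zero h1 h2 (fun j h => ?_) (fun j hj => ?_) hd n
  · have h3 := orb_X (K := Ω) (a := c.num) hb j
    rw [← e1, h, zero_mul, eq_comm, Int.cast_eq_zero, mul_eq_zero] at h3
    rcases h3 with h3 | h3
    · rw [Rat.num_eq_zero] at h3
      simp [h3] at h1
    · exact X_ne hab hcl (Nat.succ_pos j) h3
  · obtain ⟨q, hq, hq2, hp, ho⟩ := exists_prim' hb hab hcl (n := j + 1) (by omega)
    rw [e1, e2]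
    exact good_of_prim hb hab hq hq2 hp ho

end Pool.Agent.Work.MP_969914_nt.QR
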