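import Pool.Agent.Work.MP_969914_nt.Main
import Pool.Agent.Work.MP_969914_nt.Q.Cls

/-! From primitive primes of odd order to the degree of the splitting fields. -/

set_option autoImplicit false

open IntermediateField Module

namespace Pool.Agent.Work.MP_969914_nt.QR

universe u

section val
variable {Ω : Type u} [Field Ω] {Γ : Type*} [LinearOrderedCommGroupWithZero Γ]
  {v : Valuation Ω Γ} {c : Ω}

lemma exists_vertex [IsAlgClosed Ω] (h2 : v 2 = 1) (j : ℕ) (hlow : ∀ i < j, v (orb c i) = 1)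
    (y : Ω) (hy : v (orb c j - y) < 1) :
    ∃ z, (fq c)^[j] z = y ∧ v (c - z) = v (orb c j - y) := by
  induction j generalizing y with
  | zero => exact ⟨y, rfl, rfl⟩
  | succ j ih =>
    have h1 := hlow j (by omega)
    have key : ∀ w, fq c w = y → v (orb c j - w) < 1 →
        ∃ z, (fq c)^[j + 1] z = y ∧ v (c - z) = v (orb c (j + 1) - y) := by
      intro w hw hlt
      obtain ⟨z, hz, hz'⟩ := ih (fun i hi => hlow i (by omega)) w hlt
      refine ⟨z, by rw [Function.iterate_succ_apply', hz, hw], ?_⟩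
      have e1 : orb c (j + 1) - y = (orb c j - w) * (2 * orb c j - (orb c j - w)) := by
        rw [← hw, orb, fq]; ring
      have e2 : v (2 * orb c j) = 1 := by rw [map_mul, h2, h1, one_mul]
      rw [hz', e1, map_mul, v.map_sub_eq_of_lt_left (x := 2 * orb c j) (by rwa [e2]), e2, mul_one]
    obtain ⟨w, hw⟩ := exists_child c y
    by_cases h3 : v (orb c j - w) < 1
    · exact key w hw h3
    refine key (-w) (by rw [← hw]; simp [fq]) ?_
    have e1 : orb c (j + 1) - y = (orb c j - w) * (orb c j - -w) := by rw [← hw, orb, fq]; ring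
    by_contra h4
    rw [e1, map_mul] at hy
    exact absurd hy (not_lt.2 (one_le_mul (not_lt.1 h3) (not_lt.1 h4)))

lemma cong_orb (hc : v c ≤ 1) {w : Ω} (h : v (c - w) < 1) (i : ℕ) :
    v (orb c i - (fq c)^[i] w) < 1 := by
  have hw : v w ≤ 1 := by
    have : w = c - (c - w) := by ring
    rw [this]; exact v.map_sub_le hc h.le
  rw [orb_eq]; exact val_iter_sub hc hc hw h i

lemma uniq_vertex (h2 : v 2 = 1) (hc : v c ≤ 1) (j : ℕ) (hlow : ∀ i < j, v (orb c i) = 1) {w z : Ω}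
    (hw : v (c - w) < 1) (hz : v (c - z) < 1) (h : (fq c)^[j] w = (fq c)^[j] z) : w = z := by
  induction j with
  | zero => exact h
  | succ j ih =>
    rw [Function.iterate_succ_apply', Function.iterate_succ_apply'] at h
    have h3 : (fq c)^[j] w ^ 2 = (fq c)^[j] z ^ 2 := by simpa [fq] using h
    rcases sq_eq_sq_iff_eq_or_eq_neg.1 h3 with e | e
    · exact ih (fun i hi => hlow i (by omega)) e
    · have h4 := v.map_add_lt (cong_orb hc hw j) (cong_orb hc hz j)
      rw [e, show orb c j - -(fq c)^[j] z + (orb c j - (fq c)^[j] z) = 2 * orb c j by ring, map_mul,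
        h2, hlow j (by omega), one_mul] at h4
      exact absurd h4 (lt_irrefl _)

lemma not_InH' {γ x : Γ} (h0 : γ ≠ 0) (h1 : γ ≠ 1) {r : ℕ} (hr : Odd r) (hx : x ^ 2 = γ ^ r) :
    ¬ InH γ x := by
  rintro ⟨q, hq, m, e⟩
  have : γ ^ ((r * q : ℕ) : ℤ) = γ ^ (m * 2) := by
    rw [zpow_mul, ← e, zpow_natCast, pow_mul, ← hx, zpow_ofNat, ← pow_mul, ← pow_mul, mul_comm]
  have h2 := zpow_right_injective₀ (zero_lt_iff.2 h0) h1 this
  obtain ⟨t, ht⟩ := hr.mul hq
  omega

lemma good_vertex [IsAlgClosed Ω] (h2 : v 2 = 1) (hc : v c ≤ 1) {j : ℕ}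
    (hlow : ∀ i < j, v (orb c i) = 1) {γ : Γ} (h0 : γ ≠ 0) (h1 : γ < 1) {r : ℕ} (hr : Odd r)
    (hj : v (orb c j) = γ ^ r) {W : Set Ω} (hW : W ⊆ UV v γ) :
    ∃ z, (fq c)^[j] z = 0 ∧ Good c W j z := by
  have hlt : v (orb c j - 0) < 1 := by
    rw [sub_zero, hj]; exact pow_lt_one₀ zero_le h1 hr.pos.ne'
  obtain ⟨z, hz, hz'⟩ := exists_vertex h2 j hlow 0 hlt
  have hsq : ∀ s, v s ^ 2 = v (c - fq c s) := by
    intro s
    rw [v.map_sub_swap, ← map_pow]; simp [fq]
  have hU : ∀ s i, (fq c)^[i + 1] s = 0 → ¬ v (c - fq c s) < 1 → s ∈ UV v γ := by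
    intro s i hs hn
    have h3 : v (fq c s) ≤ 1 := val_le_one_of_iter hc (j := i) (by
      rw [← Function.iterate_succ_apply, hs]; simp)
    have h4 := le_antisymm (v.map_sub_le hc h3) (not_lt.1 hn)
    right
    rw [← hsq, pow_eq_one_iff_of_nonneg zero_le (by norm_num)] at h4
    rw [h4]; exact InH.one _
  refine ⟨z, hz, _, TS_UV v h0 h2, hW, fun i hi s hs => hU s i (hs.trans hz) fun h => ?_,
    fun s hs hne => hU s j (hs.trans hz) fun h => hne ?_, ?_⟩
  · have := cong_orb hc h i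
    rw [← Function.iterate_succ_apply, hs, hz, sub_zero, hlow i hi] at this
    exact absurd this (lt_irrefl _)
  · exact uniq_vertex h2 hc j hlow h (hz' ▸ hlt) hs
  · rw [sub_zero, hj] at hz'
    rintro s hs (rfl | hs')
    · have := hsq 0
      rw [hs, hz'] at this
      exact pow_ne_zero r h0 (by simpa using this.symm)
    · exact not_InH' h0 h1.ne hr (by rw [hsq, hs, hz']) hs'

lemma exists_valq (Ω : Type u) [Field Ω] [CharZero Ω] {q : ℕ} (hq : q.Prime) :
    ∃ (Γ : Type u) (_ : LinearOrderedCommGroupWithZero Γ) (v : Valuation Ω Γ),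
      (∀ z : ℤ, v z ≤ 1) ∧ v q < 1 := by
  obtain ⟨B, h1, h2⟩ := Ideal.image_subset_nonunits_valuationSubring
    (A := (Int.castRingHom Ω).range) (Ideal.span {⟨(q : Ω), q, by simp⟩}) (by
      rw [Ne, Ideal.span_singleton_eq_top, isUnit_iff_exists_inv]
      rintro ⟨⟨_, z, rfl⟩, h⟩
      have h' : (q : Ω) * (z : Ω) = 1 := congrArg Subtype.val h
      have h'' : (q : ℤ) * z = 1 := by exact_mod_cast h'
      exact hq.not_dvd_one (by exact_mod_cast (Dvd.intro _ h'' : (q : ℤ) ∣ 1)))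
  refine ⟨_, inferInstance, B.valuation, fun z => (B.valuation_le_one_iff _).2 (h1 ⟨z, rfl⟩), ?_⟩
  exact B.mem_nonunits_iff.1 (h2 ⟨_, Ideal.subset_span rfl, rfl⟩)

lemma val_unit {q : ℕ} (hq : q.Prime) (h1 : ∀ z : ℤ, v z ≤ 1) (h2 : v q < 1) {z : ℤ}
    (hz : ¬ (q : ℤ) ∣ z) : v z = 1 := by
  obtain ⟨x, y, h⟩ := ((Nat.prime_iff_prime_int.1 hq).irreducible.coprime_iff_not_dvd).2 hz
  refine ((h1 z).lt_or_eq).resolve_left fun hlt => ?_
  have e : (x : Ω) * q + y * z = 1 := by exact_mod_cast congrArg (Int.cast : ℤ → Ω) h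
  have := v.map_add_lt (x := (x : Ω) * q) (y := y * z) (g := 1)
    (by rw [map_mul]; exact (mul_le_mul' (h1 x) le_rfl).trans_lt (by simpa using h2))
    (by rw [map_mul]; exact (mul_le_mul' (h1 y) le_rfl).trans_lt (by simpa using hlt))
  rw [e, map_one] at this
  exact lt_irrefl _ this

lemma val_int {q : ℕ} (hq : q.Prime) (h1 : ∀ z : ℤ, v z ≤ 1) (h2 : v q < 1) {z : ℤ} (hz : z ≠ 0) :
    v z = v q ^ z.natAbs.factorization q := by
  have e1 : v z = v ((z.natAbs : ℕ) : Ω) := by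
    rcases Int.natAbs_eq z with h | h
    · conv_lhs => rw [h, Int.cast_natCast]
    · conv_lhs => rw [h, Int.cast_neg, Int.cast_natCast, v.map_neg]
  have e2 := val_unit hq h1 h2 (z := ((ordCompl[q] z.natAbs : ℕ) : ℤ)) (by
    rw [Int.natCast_dvd_natCast]; exact Nat.not_dvd_ordCompl hq (by simpa using hz))
  rw [Int.cast_natCast] at e2
  rw [e1]
  conv_lhs => rw [← Nat.ordProj_mul_ordCompl_eq_self z.natAbs q, Nat.cast_mul, map_mul, e2, mul_one,
    Nat.cast_pow, map_pow]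

end val

lemma orb_X {K : Type*} [Field K] [CharZero K] {a b : ℤ} (hb : 0 < b) (i : ℕ) :
    orb ((a : K) / b) i * ((b * BB b i : ℤ) : K) = ((a * XX a b (i + 1) : ℤ) : K) := by
  have hb' : (b : K) ≠ 0 := by exact_mod_cast hb.ne'
  induction i with
  | zero => simp [orb, XX, BB, hb']
  | succ i ih =>
    rw [orb, XX_succ (i + 1), BB_succ]
    push_cast at ih ⊢
    have : (a : K) / b * b = a := by field_simp
    linear_combination (orb ((a : K) / b) i * (b * BB b i) + a * XX a b (i + 1)) * ih +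
      (b * (BB b i : K) ^ 2) * this

lemma good_of_prim {Ω : Type u} [Field Ω] [CharZero Ω] [IsAlgClosed Ω] {a b : ℤ} (hb : 0 < b)
    (hab : IsCoprime a b) {j q : ℕ} (hq : q.Prime) (hq2 : q ≠ 2)
    (hp : ∀ k, 0 < k → k < j + 1 → ¬ (q : ℤ) ∣ XX a b k)
    (ho : Odd ((XX a b (j + 1)).natAbs.factorization q)) :
    ∃ z, (fq ((a : Ω) / b))^[j] z = 0 ∧ Good ((a : Ω) / b) (Set.range ((↑) : ℚ → Ω)) j z := by
  obtain ⟨Γ, _, v, h1, h2⟩ := exists_valq Ω hq
  have hX0 : XX a b (j + 1) ≠ 0 := by rintro h; simp [h] at ho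
  have hd : (q : ℤ) ∣ XX a b (j + 1) :=
    Int.natCast_dvd.2 (Nat.dvd_of_factorization_pos ho.pos.ne')
  have hqb : IsCoprime (q : ℤ) b := (cop_X_b hab j).of_isCoprime_of_dvd_left hd
  have hu : ∀ z : ℤ, IsCoprime (q : ℤ) z → v z = 1 := fun z hz => val_unit hq h1 h2 fun h =>
    (Nat.prime_iff_prime_int.1 hq).not_isUnit (hz.isUnit_of_dvd h)
  have ha : v a = 1 := val_unit hq h1 h2 fun h =>
    (Nat.prime_iff_prime_int.1 hq).not_isUnit ((cop_B hqb j).isUnit_of_dvd
      ((dvd_add_right (h.mul_right _)).1 hd))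
  have hv : ∀ i, v (orb ((a : Ω) / b) i) = v (XX a b (i + 1) : ℤ) := by
    intro i
    have := congrArg v (orb_X (K := Ω) (a := a) hb i)
    rwa [map_mul, hu _ (hqb.mul_right (cop_B hqb i)), mul_one, Int.cast_mul, map_mul, ha,
      one_mul] at this
  have h0 : v q ≠ 0 := v.ne_zero_iff.2 (by exact_mod_cast hq.ne_zero)
  refine good_vertex (v := v) ?_ ?_ (fun i hi => ?_) h0 h2 ho (by rw [hv, val_int hq h1 h2 hX0]) ?_
  · have := val_unit hq h1 h2 (z := 2) fun h =>
      hq2 ((Nat.prime_dvd_prime_iff_eq hq Nat.prime_two).1 (by exact_mod_cast h))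
    simpa using this
  · rw [map_div₀, ha, hu b hqb]; simp
  · rw [hv]; exact val_unit hq h1 h2 (hp _ (by omega) (by omega))
  · rintro _ ⟨x, rfl⟩
    by_cases hx : x = 0
    · left; simp [hx]
    right
    have e : (x : Ω) * ((x.den : ℤ) : Ω) = (x.num : ℤ) := by
      rw [Int.cast_natCast]; exact_mod_cast x.mul_den_eq_num
    refine InH.cancel (y := v ((x.den : ℤ) : Ω)) h0 ?_ ?_
    · rw [← map_mul, e, val_int hq h1 h2 (Rat.num_ne_zero.2 hx)]; exact InH.pow _ _
    · rw [val_int hq h1 h2 (by exact_mod_cast x.den_ne_zero)]; exact InH.pow _ _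

section tower
variable {Ω : Type*} [Field Ω] {K : Type*} [Field K] [Algebra K Ω] [Algebra.IsAlgebraic K Ω]

lemma mem_quad (L : IntermediateField K Ω) {s : Ω} (hs2 : s ^ 2 ∈ L) {x : Ω}
    (hx : x ∈ L ⊔ adjoin K {s}) : ∃ a ∈ L, ∃ b ∈ L, x = a + b * s := by
  let S : Subalgebra K Ω :=
    { carrier := {x | ∃ a ∈ L, ∃ b ∈ L, x = a + b * s}
      mul_mem' := by
        rintro _ _ ⟨a, ha, b, hb, rfl⟩ ⟨a', ha', b', hb', rfl⟩
        exact ⟨a * a' + b * b' * s ^ 2,
          L.add_mem (L.mul_mem ha ha') (L.mul_mem (L.mul_mem hb hb') hs2),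
          a * b' + b * a', L.add_mem (L.mul_mem ha hb') (L.mul_mem hb ha'), by ring⟩
      add_mem' := by
        rintro _ _ ⟨a, ha, b, hb, rfl⟩ ⟨a', ha', b', hb', rfl⟩
        exact ⟨a + a', L.add_mem ha ha', b + b', L.add_mem hb hb', by ring⟩
      algebraMap_mem' := fun r => ⟨_, L.algebraMap_mem r, 0, L.zero_mem, by ring⟩ }
  let E := Subalgebra.IsAlgebraic.toIntermediateField (S := S)
    (fun x _ => Algebra.IsAlgebraic.isAlgebraic x)
  have hle : L ⊔ adjoin K {s} ≤ E := by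
    refine sup_le (fun x hx => ⟨x, hx, 0, L.zero_mem, by ring⟩) ?_
    rw [adjoin_simple_le_iff]
    exact ⟨0, L.zero_mem, 1, L.one_mem, by ring⟩
  exact hle hx

instance fd_simple (y : Ω) : FiniteDimensional K (adjoin K {y}) := by
  have := fd_adjoin (K := K) ({y} : Finset Ω); rwa [Finset.coe_singleton] at this

variable {c : K}

omit [Algebra.IsAlgebraic K Ω] in
lemma indep (h1 : ¬ IsSquare (-c)) {z : Ω} (hz : z ^ 2 = -algebraMap K Ω c) {p q : K}
    (h : algebraMap K Ω p + algebraMap K Ω q * z = 0) : p = 0 ∧ q = 0 := by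
  have hq : q = 0 := by
    by_contra hq
    refine h1 ⟨p / q, (algebraMap K Ω).injective ?_⟩
    have hq' : algebraMap K Ω q ≠ 0 := (_root_.map_ne_zero _).2 hq
    rw [map_neg, ← hz, map_mul, map_div₀]
    field_simp
    linear_combination (algebraMap K Ω q * z - algebraMap K Ω p) * h
  exact ⟨by simpa [hq] using h, hq⟩

lemma sq_L1 (h1 : ¬ IsSquare (-c)) {z : Ω} (hz : z ^ 2 = -algebraMap K Ω c) {x : Ω}
    (hx : x ∈ adjoin K {z}) {p q : K} (h : x ^ 2 = algebraMap K Ω p + algebraMap K Ω q * z) :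
    ∃ u w : K, u ^ 2 - c * w ^ 2 = p ∧ 2 * u * w = q := by
  obtain ⟨_, hu, _, hw, rfl⟩ := mem_quad (⊥ : IntermediateField K Ω) (s := z)
    (by rw [hz]; exact neg_mem (IntermediateField.algebraMap_mem _ _)) (x := x) (by simpa using hx)
  obtain ⟨u, rfl⟩ := IntermediateField.mem_bot.1 hu
  obtain ⟨w, rfl⟩ := IntermediateField.mem_bot.1 hw
  have := indep h1 hz (p := u ^ 2 - c * w ^ 2 - p) (q := 2 * u * w - q) (by
    simp only [map_sub, map_mul, map_pow, map_ofNat]
    linear_combination h - algebraMap K Ω w ^ 2 * hz)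
  exact ⟨u, w, sub_eq_zero.1 this.1, sub_eq_zero.1 this.2⟩

lemma not_mem_L1 (h1 : ¬ IsSquare (-c)) (h2 : ¬ IsSquare (c ^ 2 + c)) {z : Ω}
    (hz : z ^ 2 = -algebraMap K Ω c) {s : Ω} {e : K} (he : e ^ 2 = 1)
    (hs : s ^ 2 = algebraMap K Ω (-c) + algebraMap K Ω e * z) : s ∉ adjoin K {z} := by
  intro h
  obtain ⟨u, w, h3, h4⟩ := sq_L1 h1 hz h hs
  exact h2 ⟨u ^ 2 + c * w ^ 2, by
    linear_combination (c - (u ^ 2 - c * w ^ 2)) * h3 - c * (2 * u * w + e) * h4 - c * he⟩

lemma deg_one (h1 : ¬ IsSquare (-c)) {z : Ω} (hz : z ^ 2 = -algebraMap K Ω c) :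
    2 ≤ finrank K (adjoin K {z}) := by
  have := two_mul_finrank_le (K := K) (L := ⊥) (L' := adjoin K {z}) bot_le (by
    intro h
    obtain ⟨u, hu⟩ := IntermediateField.mem_bot.1 (h ▸ mem_adjoin_simple_self K z)
    have := indep h1 hz (p := u) (q := -1) (by simp [hu])
    simpa using this.2)
  simpa using this

lemma deg_two (h1 : ¬ IsSquare (-c)) (h2 : ¬ IsSquare (c ^ 2 + c)) {s : Ω}
    (hs : (fq (algebraMap K Ω c))^[2] s = 0) : 4 ≤ finrank K (adjoin K {s}) := by
  have hz : fq (algebraMap K Ω c) s ^ 2 = -algebraMap K Ω c := eq_neg_of_add_eq_zero_left hs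
  have h3 := deg_one h1 hz
  have h4 := two_mul_finrank_le (K := K) (L := adjoin K {fq (algebraMap K Ω c) s})
    (L' := adjoin K {s}) (by
      rw [adjoin_simple_le_iff]
      exact add_mem (pow_mem (mem_adjoin_simple_self _ _) 2) (IntermediateField.algebraMap_mem _ _))
    (fun h => not_mem_L1 h1 h2 hz (s := s) (e := 1) (by simp) (by simp [fq])
      (h ▸ mem_adjoin_simple_self K s))
  omega

lemma deg_Lv2 [IsAlgClosed Ω] (h0 : (2 : K) ≠ 0) (h1 : ¬ IsSquare (-c))
    (h2 : ¬ IsSquare (c ^ 2 + c)) (h3 : ¬ IsSquare (-1 - c)) :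
    8 ≤ finrank K (Lv K (algebraMap K Ω c) 2 0) := by
  obtain ⟨z, hz⟩ := exists_child (algebraMap K Ω c) 0
  obtain ⟨s, hs⟩ := exists_child (algebraMap K Ω c) z
  obtain ⟨s', hs'⟩ := exists_child (algebraMap K Ω c) (-z)
  have hz2 : z ^ 2 = -algebraMap K Ω c := eq_neg_of_add_eq_zero_left hz
  have e1 : s ^ 2 = algebraMap K Ω (-c) + algebraMap K Ω 1 * z := by rw [← hs]; simp [fq]
  have e2 : s' ^ 2 = algebraMap K Ω (-c) + algebraMap K Ω (-1) * z := by
    have : s' ^ 2 + algebraMap K Ω c = -z := hs'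
    simp only [map_neg, map_one]; linear_combination this
  have m1 : s ∈ Lv K (algebraMap K Ω c) 2 0 := subset_adjoin _ _ (by simp [mem_pre, hs, hz])
  have m2 : s' ∈ Lv K (algebraMap K Ω c) 2 0 :=
    subset_adjoin _ _ (mem_pre.2 (by
      show fq _ (fq _ s') = 0
      rw [hs']; simpa [fq] using hz))
  have h4 := deg_two h1 h2 (s := s) (by simp [hs, hz])
  have h5 := two_mul_finrank_le (K := K) (L := adjoin K {s}) (L' := Lv K (algebraMap K Ω c) 2 0)
    (adjoin_simple_le_iff.2 m1) (by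
      intro h
      have hsL : s ^ 2 ∈ adjoin K {z} := by
        rw [e1]
        exact add_mem (IntermediateField.algebraMap_mem _ _)
          (mul_mem (IntermediateField.algebraMap_mem _ _) (mem_adjoin_simple_self _ _))
      have hsL' : s' ^ 2 ∈ adjoin K {z} := by
        rw [e2]
        exact add_mem (IntermediateField.algebraMap_mem _ _)
          (mul_mem (IntermediateField.algebraMap_mem _ _) (mem_adjoin_simple_self _ _))
      obtain ⟨α, hα, β, hβ, e⟩ := mem_quad (adjoin K {z}) hsL (x := s')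
        (le_sup_right (a := adjoin K {z}) (h ▸ m2))
      have h2' : (2 : Ω) ≠ 0 := by
        rw [← map_ofNat (algebraMap K Ω) 2]; exact (_root_.map_ne_zero _).2 h0
      by_cases hβ0 : β = 0
      · exact not_mem_L1 h1 h2 hz2 (by simp) e2 (by rw [e, hβ0]; simpa using hα)
      by_cases hα0 : α = 0
      · obtain ⟨u, w, h6, h7⟩ := sq_L1 h1 hz2 (x := β * s ^ 2) (mul_mem hβ hsL) (p := c ^ 2 + c)
          (q := 0) (by
            have : β * s ^ 2 = s' * s := by rw [e, hα0]; ring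
            rw [this, mul_pow, e1, e2]
            simp only [map_neg, map_one, map_add, map_pow, map_zero]
            linear_combination (-1 : Ω) * hz2)
        have hc0 : c ≠ 0 := by rintro rfl; simp at h1
        rcases mul_eq_zero.1 h7 with h8 | h8
        · have hu : u = 0 := (mul_eq_zero.1 h8).resolve_left h0
          refine h3 ⟨w, mul_left_cancel₀ hc0 ?_⟩
          rw [hu] at h6
          linear_combination h6
        · exact h2 ⟨u, by rw [h8] at h6; linear_combination -h6⟩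
      · refine not_mem_L1 h1 h2 hz2 (by simp) e1 ?_
        have : s = (s' ^ 2 - α ^ 2 - β ^ 2 * s ^ 2) / (2 * α * β) := by
          rw [e]; field_simp; ring
        rw [this]
        exact div_mem (sub_mem (sub_mem hsL' (pow_mem hα 2)) (mul_mem (pow_mem hβ 2) hsL))
          (mul_mem (mul_mem (ofNat_mem _ 2) hα) hβ))
  omega

theorem tower [IsAlgClosed Ω] (h0 : (2 : K) ≠ 0) (h1 : ¬ IsSquare (-c))
    (h2 : ¬ IsSquare (c ^ 2 + c)) (hpc : ∀ j, orb (algebraMap K Ω c) j ≠ 0)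
    (hg : ∀ j, 2 ≤ j → ∃ z, (fq (algebraMap K Ω c))^[j] z = 0 ∧
      Good (algebraMap K Ω c) (Set.range (algebraMap K Ω)) j z)
    {d : ℕ} (hd : d = 2 ∨ (d = 1 ∧ ¬ IsSquare (-1 - c))) (n : ℕ) :
    2 ^ (2 ^ n - 1) ≤ d * finrank K (Lv K (algebraMap K Ω c) n 0) := by
  classical
  have e0 : algebraMap K Ω 0 = 0 := map_zero _
  have h2' : (2 : Ω) ≠ 0 := by
    rw [← map_ofNat (algebraMap K Ω) 2]; exact (_root_.map_ne_zero _).2 h0
  have hgood : ∀ j z, 2 ≤ j → (fq (algebraMap K Ω c))^[j] z = 0 →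
      2 ^ j ≤ finrank K (adjoin K {z}) → Good (algebraMap K Ω c) (Set.range (algebraMap K Ω)) j z := by
    intro j z hj hz hdeg
    by_contra hb
    have h3 := finrank_le_bad h0 c 0 (by rwa [e0]) (j := j) (z := z) (by
      simp only [bad, Finset.mem_filter, mem_pre]
      exact ⟨by rw [hz, e0], hb⟩)
    obtain ⟨z', h4, h5⟩ := hg j hj
    have h6 : (bad (algebraMap K Ω c) (Set.range (algebraMap K Ω)) j (algebraMap K Ω 0)).card <
        (pre (algebraMap K Ω c) j (algebraMap K Ω 0)).card := by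
      refine Finset.card_lt_card ⟨Finset.filter_subset _ _, fun h => ?_⟩
      have := h (mem_pre.2 (h4.trans e0.symm))
      simp only [bad, Finset.mem_filter] at this
      exact this.2 h5
    have := card_pre_le (algebraMap K Ω c) j (algebraMap K Ω 0)
    omega
  have hdeg : ∀ j z, (fq (algebraMap K Ω c))^[j + 2] z = 0 → 2 ^ (j + 2) ≤ finrank K (adjoin K {z}) := by
    intro j
    induction j with
    | zero => exact fun z hz => deg_two h1 h2 hz
    | succ j ih =>
      intro y hy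
      have hlev : (fq (algebraMap K Ω c))^[j + 2] (fq (algebraMap K Ω c) y) = 0 := hy
      have h4 := ih _ hlev
      have h3 := level_step' c 0 (j := j + 2) (adjoin K {fq (algebraMap K Ω c) y}) (adjoin K {y})
        (adjoin.mono _ _ _ (by simpa only [Set.singleton_subset_iff, Finset.mem_coe, mem_pre, e0]
          using hlev))
        (by
          rw [adjoin_simple_le_iff]
          exact add_mem (pow_mem (mem_adjoin_simple_self _ _) 2)
            (IntermediateField.algebraMap_mem _ _))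
        {fq (algebraMap K Ω c) y} (by
          intro x hx
          rw [Finset.mem_singleton.1 hx]
          refine ⟨mem_adjoin_simple_self _ _, hlev.trans e0.symm, hgood _ _ (by omega) hlev h4,
            fun s hs => ?_⟩
          have : s ^ 2 = y ^ 2 := by simpa [fq] using hs
          rcases sq_eq_sq_iff_eq_or_eq_neg.1 this with rfl | rfl
          · exact mem_adjoin_simple_self _ _
          · exact neg_mem (mem_adjoin_simple_self _ _))
      rw [Finset.card_singleton] at h3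
      rw [show j + 1 + 2 = j + 2 + 1 from rfl, pow_succ]
      omega
  have hd1 : 1 ≤ d := by omega
  have hle : ∀ j z, (fq (algebraMap K Ω c))^[j] z = 0 →
      finrank K (adjoin K {z}) ≤ finrank K (Lv K (algebraMap K Ω c) j 0) := fun j z hz =>
    finrank_le_of_le_right (adjoin_simple_le_iff.2 (subset_adjoin _ _ (mem_pre.2 hz)))
  obtain ⟨z, hz⟩ := exists_child (algebraMap K Ω c) 0
  rcases n with _ | _ | n
  · have : 0 < finrank K (Lv K (algebraMap K Ω c) 0 0) := finrank_pos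
    exact Nat.mul_pos hd1 this
  · exact ((deg_one h1 (eq_neg_of_add_eq_zero_left hz)).trans (hle 1 z hz)).trans
      (Nat.le_mul_of_pos_left _ hd1)
  induction n with
  | zero =>
    rcases hd with rfl | ⟨rfl, h3⟩
    · obtain ⟨s, hs⟩ := exists_child (algebraMap K Ω c) z
      have hs' : (fq (algebraMap K Ω c))^[2] s = 0 := by simp [hs, hz]
      have := (deg_two h1 h2 hs').trans (hle 2 s hs')
      show 8 ≤ 2 * finrank K (Lv K (algebraMap K Ω c) 2 0)
      omega
    · simpa using deg_Lv2 (Ω := Ω) h0 h1 h2 h3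
  | succ n ih =>
    have h3 := level_step c 0 (y0 := 0) (k := 0) (n := n + 2) e0.symm
      (pre (algebraMap K Ω c) (n + 2) 0) (fun y hy => ⟨mem_pre.1 hy, by
        rw [zero_add]; exact hgood _ _ (by omega) (mem_pre.1 hy) (hdeg n y (mem_pre.1 hy))⟩)
    rw [card_pre h2' hpc] at h3
    have h5 : 2 ^ (n + 1 + 1 + 1) - 1 = 2 ^ (n + 2) + (2 ^ (n + 1 + 1) - 1) := by
      have : 1 ≤ 2 ^ (n + 2) := Nat.one_le_two_pow
      rw [pow_succ 2 (n + 1 + 1)]; simp only [show n + 1 + 1 = n + 2 from rfl]; omega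
    rw [h5, pow_add]
    calc _ ≤ 2 ^ 2 ^ (n + 2) * (d * finrank K (Lv K (algebraMap K Ω c) (n + 2) 0)) :=
          Nat.mul_le_mul_left _ ih
      _ = d * (2 ^ 2 ^ (n + 2) * finrank K (Lv K (algebraMap K Ω c) (n + 2) 0)) := by ring
      _ ≤ _ := Nat.mul_le_mul_left _ h3

end tower

theorem main {Ω : Type} [Field Ω] [CharZero Ω] [IsAlgClosed Ω] [Algebra ℚ Ω]
    [Algebra.IsAlgebraic ℚ Ω] (c : ℚ) (s : ℤ) (hs : (s = 1 ∧ -1 < c) ∨ (s = -1 ∧ c < -2))
    (hcl : (c.num % 2 = 1 ∧ c.num % 4 = c.den % 4) ∨ (c.den : ℤ) % 4 = 2 ∨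
      ((c.den : ℤ) % 4 = 0 ∧ s * c.num % 4 = 3) ∨
      ((c.num % 4 = 0 ∨ (c.num + c.den) % 4 = 0) ∧ s * c.den % 4 = 3) ∨
      (c.num % 4 = 2 ∧ s * c.den % 4 = 1))
    (h1 : ¬ IsSquare (-c)) (h2 : ¬ IsSquare (c ^ 2 + c))
    {d : ℕ} (hd : d = 2 ∨ (d = 1 ∧ ¬ IsSquare (-1 - c))) (n : ℕ) :
    2 ^ (2 ^ n - 1) ≤ d * finrank ℚ (adjoin ℚ {z : Ω | (fun x => x ^ 2 + (c : Ω))^[n] z = 0}) := by
  have hb : (0 : ℤ) < c.den := by exact_mod_cast c.den_pos
  have hb' : (0 : ℚ) < c.den := by exact_mod_cast c.den_pos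
  have hab : IsCoprime c.num (c.den : ℤ) := Int.isCoprime_iff_gcd_eq_one.2 c.reduced
  have hs' : (s = 1 ∧ 0 < c.num + c.den) ∨ (s = -1 ∧ c.num + 2 * c.den < 0) := by
    have e := c.mul_den_eq_num
    refine hs.imp (fun h => ⟨h.1, ?_⟩) fun h => ⟨h.1, ?_⟩
    · have : (0 : ℚ) < c.num + c.den := by nlinarith [h.2]
      exact_mod_cast this
    · have : (c.num : ℚ) + 2 * c.den < 0 := by nlinarith [h.2]
      exact_mod_cast this
  have e1 : algebraMap ℚ Ω c = (c.num : Ω) / ((c.den : ℤ) : Ω) := by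
    rw [eq_ratCast, Rat.cast_def, Int.cast_natCast]
  have e2 : Set.range (algebraMap ℚ Ω) = Set.range ((↑) : ℚ → Ω) := by
    congr 1; ext x; exact eq_ratCast _ x
  have e3 : ({z : Ω | (fun x => x ^ 2 + (c : Ω))^[n] z = 0} : Set Ω) =
      pre (algebraMap ℚ Ω c) n 0 := by
    ext z; rw [Finset.mem_coe, mem_pre, eq_ratCast]; rfl
  rw [e3]
  refine tower two_ne_zero h1 h2 (fun j h => ?_) (fun j hj => ?_) hd n
  · have h3 := orb_X (K := Ω) (a := c.num) hb j
    rw [← e1, h, zero_mul, eq_comm, Int.cast_eq_zero, mul_eq_zero] at h3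
    rcases h3 with h3 | h3
    · rw [Rat.num_eq_zero] at h3
      simp [h3] at h1
    · cases j with
      | zero => simp [XX_one] at h3
      | succ j => simpa [h3] using X_sign hb hs' (k := j + 1 + 1) (by omega)
  · obtain ⟨q, hq, hq2, hp, ho⟩ := exists_prim hb hab hs' hcl (n := j + 1) (by omega)
    rw [e1, e2]
    exact good_of_prim hb hab hq hq2 hp ho

end Pool.Agent.Work.MP_969914_nt.QR
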