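import Pool.Agent.Work.MP_969914_nt.Q.Sym

/-! The numerators of the critical orbit of `x^2 + a/b` and their congruences. -/

set_option autoImplicit false

namespace Pool.Agent.Work.MP_969914_nt.QR

/-- The powers `b^(2^k - 1)`. -/
def BB (b : ℤ) : ℕ → ℤ
  | 0 => 1
  | k + 1 => b * BB b k ^ 2

/-- The numerators of `f^k(0) / c`. -/
def XX (a b : ℤ) : ℕ → ℤ
  | 0 => 0
  | k + 1 => a * XX a b k ^ 2 + BB b k

/-- The numerators of the sums of two consecutive terms. -/
def YY (a b : ℤ) (i : ℕ) : ℤ := XX a b (i + 1) * (b * BB b i) + XX a b (i + 2)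

variable {a b : ℤ}

lemma XX_one : XX a b 1 = 1 := by simp [XX, BB]

lemma XX_two : XX a b 2 = a + b := by simp [XX, BB]

lemma YY_zero : YY a b 0 = a + 2 * b := by simp [YY, XX, BB]; ring

lemma XX_succ (k : ℕ) : XX a b (k + 1) = a * XX a b k ^ 2 + BB b k := rfl

lemma BB_succ (k : ℕ) : BB b (k + 1) = b * BB b k ^ 2 := rfl

lemma Q_iter {V : ℤ} {k j : ℕ} (h : V ∣ XX a b k ^ 2 * BB b j - XX a b j ^ 2 * BB b k) (t : ℕ) :
    V ∣ XX a b (k + t + 1) * BB b (j + t) - XX a b (j + t + 1) * BB b (k + t) := by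
  have QL : ∀ k j, V ∣ XX a b k ^ 2 * BB b j - XX a b j ^ 2 * BB b k →
      V ∣ XX a b (k + 1) * BB b j - XX a b (j + 1) * BB b k := by
    intro k j h
    have : XX a b (k + 1) * BB b j - XX a b (j + 1) * BB b k =
        a * (XX a b k ^ 2 * BB b j - XX a b j ^ 2 * BB b k) := by simp only [XX_succ]; ring
    rw [this]; exact h.mul_left _
  induction t with
  | zero => exact QL k j h
  | succ t ih =>
    refine QL (k + t + 1) (j + t + 1) ?_
    have : XX a b (k + t + 1) ^ 2 * BB b (j + t + 1) - XX a b (j + t + 1) ^ 2 * BB b (k + t + 1) =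
        (XX a b (k + t + 1) * BB b (j + t) - XX a b (j + t + 1) * BB b (k + t)) *
        (b * (XX a b (k + t + 1) * BB b (j + t) + XX a b (j + t + 1) * BB b (k + t))) := by
      simp only [BB_succ]; ring
    rw [this]; exact ih.mul_right _

lemma per_L (K t : ℕ) :
    XX a b K ^ 2 ∣ XX a b (K + t + 1) * BB b t - XX a b (t + 1) * BB b (K + t) := by
  have := Q_iter (a := a) (b := b) (V := XX a b K ^ 2) (k := K) (j := 0) (by simp [XX, BB]) t
  simpa using this

lemma per_L' (K t : ℕ) :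
    XX a b K ∣ XX a b (K + t + 1) * BB b t - XX a b (t + 1) * BB b (K + t) :=
  (dvd_pow_self _ two_ne_zero).trans (per_L K t)

lemma Y_L (i t : ℕ) : YY a b i ∣
    XX a b (i + 2 + t + 1) * BB b (i + 1 + t) - XX a b (i + 1 + t + 1) * BB b (i + 2 + t) := by
  refine Q_iter ?_ t
  refine ⟨BB b (i + 1) * (XX a b (i + 2) - XX a b (i + 1) * (b * BB b i)), ?_⟩
  rw [YY, BB_succ (i + 1), BB_succ i]; ring

lemma cop_B {V : ℤ} (h : IsCoprime V b) (k : ℕ) : IsCoprime V (BB b k) := by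
  induction k with
  | zero => exact isCoprime_one_right
  | succ k ih => exact h.mul_right ih.pow_right

lemma cop_X_b (hab : IsCoprime a b) (k : ℕ) : IsCoprime (XX a b (k + 1)) b := by
  induction k with
  | zero => rw [XX_one]; exact isCoprime_one_left
  | succ k ih =>
    rw [XX_succ, BB_succ]
    exact (hab.mul_left ih.pow_left).add_mul_left_left _

lemma cop_X_b' (hab : IsCoprime a b) {k : ℕ} (hk : 0 < k) : IsCoprime (XX a b k) b := by
  obtain ⟨k, rfl⟩ : ∃ j, k = j + 1 := ⟨k - 1, by omega⟩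
  exact cop_X_b hab k

lemma cop_Y_b (hab : IsCoprime a b) (i : ℕ) : IsCoprime (YY a b i) b := by
  have : YY a b i = XX a b (i + 2) + b * (XX a b (i + 1) * BB b i) := by rw [YY]; ring
  rw [this]; exact (cop_X_b hab _).add_mul_left_left _

lemma cop_of_L {V x y u w : ℤ} (h : V ∣ x * u - y * w) (hw : IsCoprime V w) (hy : IsCoprime y V) :
    IsCoprime x V := by
  obtain ⟨t, ht⟩ := h
  have : IsCoprime (y * w + V * t) V := (hy.mul_left hw.symm).add_mul_left_left _
  rw [← ht, add_sub_cancel] at this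
  exact this.of_mul_left_left

lemma dvd_of_L {V x y u w : ℤ} (h : V ∣ x * u - y * w) (hu : IsCoprime V u) (hw : IsCoprime V w) :
    V ∣ x ↔ V ∣ y := by
  constructor
  · intro hx
    exact hw.dvd_of_dvd_mul_right ((dvd_sub_right (hx.mul_right u)).1 h)
  · intro hy
    exact hu.dvd_of_dvd_mul_right ((dvd_sub_left (hy.mul_right w)).1 h)

lemma dvd_per {V : ℤ} {K : ℕ} (hV : IsCoprime V b) (h : V ∣ XX a b K) (t : ℕ) :
    V ∣ XX a b (K + t) ↔ V ∣ XX a b t := by
  cases t with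
  | zero => simp [h, XX]
  | succ t => exact dvd_of_L (h.trans (per_L' K t)) (cop_B hV _) (cop_B hV _)

lemma dvd_mul_idx (hab : IsCoprime a b) (K q : ℕ) : XX a b K ∣ XX a b (K * q) := by
  rcases Nat.eq_zero_or_pos K with rfl | hK
  · simp
  induction q with
  | zero => simp [XX]
  | succ q ih => rw [mul_add, mul_one, add_comm]; exact (dvd_per (cop_X_b' hab hK) dvd_rfl _).2 ih

lemma dvd_gcd_idx {V : ℤ} (hV : IsCoprime V b) (k j : ℕ) :
    V ∣ XX a b k → V ∣ XX a b j → V ∣ XX a b (Nat.gcd k j) := by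
  induction k, j using Nat.gcd.induction with
  | H0 j => intro _ h; simpa using h
  | H1 k j hk ih =>
    intro h1 h2
    rw [Nat.gcd_rec]
    refine ih ?_ h1
    have : ∀ q r, V ∣ XX a b (k * q + r) → V ∣ XX a b r := by
      intro q r
      induction q with
      | zero => simp
      | succ q ih =>
        intro h
        rw [show k * (q + 1) + r = k + (k * q + r) by ring] at h
        exact ih ((dvd_per hV h1 _).1 h)
    exact this (j / k) _ (by rwa [Nat.div_add_mod])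

lemma cop_idx (hab : IsCoprime a b) {k j : ℕ} (hk : 0 < k) (h : Nat.Coprime k j) :
    IsCoprime (XX a b k) (XX a b j) := by
  have h1 := Int.gcd_dvd_left (XX a b k) (XX a b j)
  have := dvd_gcd_idx ((cop_X_b' hab hk).of_isCoprime_of_dvd_left h1) k j h1 (Int.gcd_dvd_right _ _)
  rw [h, XX_one] at this
  exact Int.isCoprime_iff_gcd_eq_one.2 (Nat.dvd_one.1 (by exact_mod_cast this))

lemma cop_X_Y0 (hab : IsCoprime a b) (i : ℕ) : IsCoprime (XX a b (i + 1)) (YY a b i) := by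
  have h : IsCoprime (XX a b (i + 1)) (XX a b (i + 2)) :=
    cop_idx hab (Nat.succ_pos i) (by simp [show i + 2 = (i + 1) + 1 from rfl])
  rw [YY, add_comm (XX a b (i + 1) * _)]
  exact h.add_mul_left_right _

lemma cop_X_Y1 (hab : IsCoprime a b) (i t : ℕ) : IsCoprime (XX a b (i + 2 + t)) (YY a b i) := by
  induction t with
  | zero =>
    have h : YY a b i ∣ XX a b (i + 2) * 1 - XX a b (i + 1) * (-(b * BB b i)) :=
      ⟨1, by rw [YY]; ring⟩
    exact cop_of_L h ((cop_Y_b hab i).mul_right (cop_B (cop_Y_b hab i) _)).neg_right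
      (cop_X_Y0 hab i)
  | succ t ih =>
    refine cop_of_L (Y_L i t) (cop_B (cop_Y_b hab i) _) ?_
    rwa [show i + 1 + t + 1 = i + 2 + t by ring]

lemma cop_X_Y (hab : IsCoprime a b) {k : ℕ} (hk : 0 < k) (i : ℕ) :
    IsCoprime (XX a b k) (YY a b i) := by
  have := cop_X_Y1 hab i (k * (i + 2) - (i + 2))
  rw [show i + 2 + (k * (i + 2) - (i + 2)) = k * (i + 2) by
    have : i + 2 ≤ k * (i + 2) := Nat.le_mul_of_pos_left _ hk
    omega] at this
  exact this.of_isCoprime_of_dvd_left (dvd_mul_idx hab _ _)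

/-! Symbols. -/

lemma JJ_B {V : ℤ} (h : IsCoprime V b) (k : ℕ) : JJ (BB b (k + 1)) V = JJ b V := by
  rw [BB_succ, sq, JJ_mul_left, JJ_mul_left, JJ_sq (cop_B h k).symm, mul_one]

lemma JJ_of_L {V x y : ℤ} {k j : ℕ} (hV : IsCoprime V b)
    (h : V ∣ x * BB b (j + 1) - y * BB b (k + 1)) : JJ x V = JJ y V := by
  have := JJ_congr h
  rw [JJ_mul_left, JJ_mul_left, JJ_B hV, JJ_B hV] at this
  rcases JJ_pm hV.symm with e | e <;> simpa [e] using this

lemma J_X_per (hab : IsCoprime a b) {K : ℕ} (hK : 0 < K) (q t : ℕ) :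
    JJ (XX a b (K * q + t + 2)) (XX a b K) = JJ (XX a b (t + 2)) (XX a b K) := by
  induction q with
  | zero => simp
  | succ q ih =>
    rw [← ih, show K * (q + 1) + t + 2 = K + (K * q + t + 1) + 1 by ring]
    exact JJ_of_L (k := K + (K * q + t)) (j := K * q + t) (cop_X_b' hab hK) (per_L' K _)

lemma J_X_one (hab : IsCoprime a b) (K : ℕ) :
    JJ (XX a b (K + 2)) (XX a b (K + 1)) = JJ b (XX a b (K + 1)) := by
  rw [← JJ_B (cop_X_b hab K) K]
  exact JJ_congr ⟨a * XX a b (K + 1), by rw [XX_succ (K + 1)]; ring⟩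

lemma J_Y_tail (hab : IsCoprime a b) (i t : ℕ) :
    JJ (XX a b (i + 2 + t)) (YY a b i) = JJ (XX a b (i + 2)) (YY a b i) := by
  induction t with
  | zero => rfl
  | succ t ih =>
    rw [← ih]
    have := Y_L (a := a) (b := b) i t
    rw [show i + 1 + t + 1 = i + 2 + t by ring, show i + 1 + t = i + t + 1 by ring] at this
    exact JJ_of_L (k := i + 1 + t) (j := i + t) (cop_Y_b hab i)
      (by rwa [show i + 1 + t + 1 = i + 2 + t by ring])

lemma J_Y_tail' (hab : IsCoprime a b) {i k : ℕ} (h : i + 2 ≤ k) :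
    JJ (XX a b k) (YY a b i) = JJ (XX a b (i + 2)) (YY a b i) := by
  obtain ⟨t, rfl⟩ := Nat.exists_eq_add_of_le h
  exact J_Y_tail hab i t

lemma J_Y_zero : JJ (XX a b 2) (YY a b 0) = JJ (-1) (YY a b 0) * JJ b (YY a b 0) := by
  rw [← JJ_neg]
  exact JJ_congr ⟨1, by rw [YY_zero, XX_two]; ring⟩

lemma J_Y_succ (hab : IsCoprime a b) (i : ℕ) : JJ (XX a b (i + 3)) (YY a b (i + 1)) =
    JJ (-1) (YY a b (i + 1)) * JJ (XX a b (i + 2)) (YY a b (i + 1)) := by
  have h : JJ (XX a b (i + 3)) (YY a b (i + 1)) =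
      JJ (-(XX a b (i + 2) * (b * BB b (i + 1)))) (YY a b (i + 1)) :=
    JJ_congr ⟨1, by rw [YY]; ring⟩
  rw [h, JJ_neg, JJ_mul_left, JJ_mul_left, JJ_B (cop_Y_b hab _), JJ_sq (cop_Y_b hab _).symm, mul_one]

lemma J_Y_X (hab : IsCoprime a b) {K : ℕ} (hK : 0 < K) (q i : ℕ) :
    JJ (YY a b (K * q + i)) (XX a b K) = JJ (YY a b i) (XX a b K) := by
  induction q with
  | zero => simp
  | succ q ih =>
    rw [← ih, show K * (q + 1) + i = K + (K * q + i) by ring]
    generalize K * q + i = r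
    refine JJ_of_L (k := K + r) (j := r) (cop_X_b' hab hK) ?_
    have h1 := (per_L' (a := a) (b := b) K r).mul_left (b ^ 2 * BB b (K + r) * BB b r)
    have h2 := per_L' (a := a) (b := b) K (r + 1)
    have e : YY a b (K + r) * BB b (r + 1) - YY a b r * BB b (K + r + 1) =
        b ^ 2 * BB b (K + r) * BB b r *
          (XX a b (K + r + 1) * BB b r - XX a b (r + 1) * BB b (K + r)) +
        (XX a b (K + r + 2) * BB b (r + 1) - XX a b (r + 2) * BB b (K + r + 1)) := by
      rw [YY, YY, BB_succ r, BB_succ (K + r)]; ring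
    rw [e]
    exact h1.add h2

lemma J_Y_X0 (hab : IsCoprime a b) (i : ℕ) :
    JJ (YY a b i) (XX a b (i + 1)) = JJ b (XX a b (i + 1)) := by
  rw [← J_X_one hab]
  exact JJ_congr ⟨b * BB b i, by rw [YY]; ring⟩

lemma J_X_b (hab : IsCoprime a b) (k : ℕ) : JJ (XX a b (k + 2)) b = JJ a b := by
  have h : JJ (XX a b (k + 2)) b = JJ (a * (XX a b (k + 1) * XX a b (k + 1))) b :=
    JJ_congr ⟨BB b k ^ 2, by rw [XX_succ (k + 1), BB_succ]; ring⟩
  rw [h, JJ_mul_left, JJ_mul_left, JJ_sq (cop_X_b hab k), mul_one]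

lemma J_Y_b (hab : IsCoprime a b) (i : ℕ) : JJ (YY a b i) b = JJ a b := by
  rw [← J_X_b hab i]
  exact JJ_congr ⟨XX a b (i + 1) * BB b i, by rw [YY]; ring⟩

/-! Rigid divisibility. -/

lemma fact_mul_idx (hab : IsCoprime a b) (hX : ∀ k, 0 < k → XX a b k ≠ 0) {q r : ℕ} (hq : q.Prime)
    (hr : 0 < r) (h : (q : ℤ) ∣ XX a b r) (t : ℕ) :
    (XX a b (r * (t + 1))).natAbs.factorization q = (XX a b r).natAbs.factorization q := by
  have key : ∀ k, 0 < k → ∀ e, (q : ℤ) ^ e ∣ XX a b k ↔ e ≤ (XX a b k).natAbs.factorization q := by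
    intro k hk e
    rw [← hq.pow_dvd_iff_le_factorization (by simpa using hX k hk), ← Int.natCast_dvd, Nat.cast_pow]
  set v := (XX a b r).natAbs.factorization q with hv
  have h1 : 1 ≤ v := (key r hr 1).1 (by simpa using h)
  have h2 : (q : ℤ) ^ v ∣ XX a b r := (key r hr v).2 le_rfl
  have h3 : (q : ℤ) ^ (v + 1) ∣ XX a b r ^ 2 :=
    (pow_dvd_pow _ (by omega)).trans (show (q : ℤ) ^ (v * 2) ∣ _ by
      rw [pow_mul]; exact pow_dvd_pow_of_dvd h2 2)
  have h4 : IsCoprime ((q : ℤ) ^ (v + 1)) b :=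
    ((cop_X_b' hab hr).of_isCoprime_of_dvd_left h).pow_left
  have h5 : ¬ (q : ℤ) ^ (v + 1) ∣ XX a b (r * (t + 1)) := by
    induction t with
    | zero => rw [zero_add, mul_one, key r hr]; omega
    | succ t ih =>
      obtain ⟨w, hw⟩ : ∃ w, r * (t + 1) = w + 1 := ⟨r * (t + 1) - 1, by
        have : 0 < r * (t + 1) := by positivity
        omega⟩
      rw [show r * (t + 1 + 1) = r + w + 1 by rw [add_assoc r, ← hw]; ring,
        dvd_of_L (h3.trans (per_L r w)) (cop_B h4 _) (cop_B h4 _), ← hw]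
      exact ih
  have h6 := (key _ (by positivity) v).1 (h2.trans (dvd_mul_idx hab r (t + 1)))
  rw [key _ (by positivity)] at h5
  omega

lemma isSquare_of_even {N : ℕ} (hN : N ≠ 0) (h : ∀ q, q.Prime → Even (N.factorization q)) :
    IsSquare N := by
  obtain ⟨u, w, e, hu⟩ := Nat.sq_mul_squarefree N
  have hu0 : u ≠ 0 := hu.ne_zero
  have hw0 : w ≠ 0 := by rintro rfl; simp at e; exact hN e.symm
  by_cases h1 : u = 1
  · exact ⟨w, by rw [← e, h1]; ring⟩
  obtain ⟨q, hq, hd⟩ := Nat.exists_prime_and_dvd h1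
  have h2 := hu.natFactorization_le_one q
  have h3 := hq.factorization_pos_of_dvd hu0 hd
  have h4 := h q hq
  rw [← e, Nat.factorization_mul (pow_ne_zero _ hw0) hu0, Nat.factorization_pow] at h4
  simp only [Finsupp.coe_add, Finsupp.coe_smul, Pi.add_apply, Pi.smul_apply, smul_eq_mul] at h4
  obtain ⟨z, hz⟩ := h4
  omega

lemma isSquare_P (hab : IsCoprime a b) (hX : ∀ k, 0 < k → XX a b k ≠ 0) {m : ℕ} (hm : 0 < m)
    {F : Finset ℕ} (hF : ∀ p ∈ F, p.Prime) (hmF : ∀ p, p.Prime → p ∣ m → p ∈ F)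
    (hn : ∀ q : ℕ, q.Prime → (q : ℤ) ∣ XX a b (m * ∏ p ∈ F, p) →
      (∀ k, 0 < k → k < m * ∏ p ∈ F, p → ¬ (q : ℤ) ∣ XX a b k) →
      Even ((XX a b (m * ∏ p ∈ F, p)).natAbs.factorization q)) :
    IsSquare (∏ S ∈ F.powerset, XX a b (m * ∏ p ∈ S, p)).natAbs := by
  classical
  have hpos : ∀ S ⊆ F, 0 < m * ∏ p ∈ S, p := fun S hS =>
    Nat.mul_pos hm (Finset.prod_pos fun p hp => (hF p (hS hp)).pos)
  have hne : ∀ S ∈ F.powerset, (XX a b (m * ∏ p ∈ S, p)).natAbs ≠ 0 := fun S hS => by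
    simpa using hX _ (hpos S (Finset.mem_powerset.1 hS))
  have e : (∏ S ∈ F.powerset, XX a b (m * ∏ p ∈ S, p)).natAbs =
      ∏ S ∈ F.powerset, (XX a b (m * ∏ p ∈ S, p)).natAbs := map_prod Int.natAbsHom _ _
  rw [e]
  refine isSquare_of_even (Finset.prod_ne_zero_iff.2 hne) fun q hq => ?_
  rw [Nat.factorization_prod_apply hne]
  by_cases hex : ∃ k, 0 < k ∧ (q : ℤ) ∣ XX a b k
  swap
  · refine Finset.even_sum _ fun S hS => ?_
    rw [Nat.factorization_eq_zero_of_not_dvd]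
    · exact Even.zero
    · exact fun h => hex ⟨_, hpos S (Finset.mem_powerset.1 hS), Int.natCast_dvd.2 h⟩
  obtain ⟨hr, hd⟩ := Nat.find_spec hex
  have hmin := fun k => Nat.find_min hex (m := k)
  set r := Nat.find hex with hr'
  have hqb : IsCoprime (q : ℤ) b := (cop_X_b' hab hr).of_isCoprime_of_dvd_left hd
  have hv : ∀ k, 0 < k → (XX a b k).natAbs.factorization q =
      if r ∣ k then (XX a b r).natAbs.factorization q else 0 := by
    intro k hk
    split_ifs with h
    · obtain ⟨t, rfl⟩ := h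
      obtain ⟨t, rfl⟩ : ∃ j, t = j + 1 := ⟨t - 1, by
        have : t ≠ 0 := by rintro rfl; simp at hk
        omega⟩
      exact fact_mul_idx hab hX hq hr hd t
    · refine Nat.factorization_eq_zero_of_not_dvd fun h' => h ?_
      have h1 := dvd_gcd_idx hqb r k hd (Int.natCast_dvd.2 h')
      have h2 : ¬ Nat.gcd r k < r := fun h3 => hmin _ h3 ⟨Nat.gcd_pos_of_pos_left _ hr, h1⟩
      have h3 : Nat.gcd r k = r := le_antisymm (Nat.gcd_le_left _ hr) (not_lt.1 h2)
      rw [← h3]; exact Nat.gcd_dvd_right _ _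
  rw [Finset.sum_congr rfl fun S hS => hv _ (hpos S (Finset.mem_powerset.1 hS))]
  by_cases h1 : r ∣ m * ∏ p ∈ F, p
  swap
  · refine Finset.even_sum _ fun S hS => ?_
    rw [if_neg]
    · exact Even.zero
    · exact fun h => h1 (h.trans (Nat.mul_dvd_mul_left _
        (Finset.prod_dvd_prod_of_subset _ _ _ (Finset.mem_powerset.1 hS))))
  obtain ⟨c, hc⟩ := h1
  by_cases h2 : c = 1
  · rw [h2, mul_one] at hc
    refine Finset.even_sum _ fun S _ => ?_
    split_ifs
    · rw [← hc]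
      exact hn q hq (hc ▸ hd) fun k hk hlt h => hmin k (hc ▸ hlt) ⟨hk, h⟩
    · exact Even.zero
  obtain ⟨p, hp, d, rfl⟩ := Nat.exists_prime_and_dvd h2
  have hpF : p ∈ F := by
    have : p ∣ m * ∏ p ∈ F, p := ⟨r * d, by rw [hc]; ring⟩
    rcases (Nat.Prime.dvd_mul hp).1 this with h | h
    · exact hmF p hp h
    · obtain ⟨p', h3, h4⟩ := (Prime.dvd_finsetProd_iff hp.prime _).1 h
      rwa [(Nat.prime_dvd_prime_iff_eq hp (hF p' h3)).1 h4]
  have h3 : r ∣ m * ∏ x ∈ F.erase p, x := by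
    rw [← Finset.mul_prod_erase F _ hpF] at hc
    refine ⟨d, Nat.eq_of_mul_eq_mul_left hp.pos ?_⟩
    linear_combination hc
  rw [← Finset.insert_erase hpF, Finset.sum_powerset_insert (Finset.notMem_erase p F),
    ← Finset.sum_add_distrib]
  refine Finset.even_sum _ fun S hS => ?_
  have hS' := Finset.mem_powerset.1 hS
  have hpS : p ∉ S := fun h => Finset.notMem_erase p F (hS' h)
  have : (r ∣ m * ∏ x ∈ insert p S, x) ↔ r ∣ m * ∏ x ∈ S, x := by
    rw [Finset.prod_insert hpS]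
    constructor
    · intro h
      rw [← Finset.prod_sdiff hS'] at h3
      have hcop : Nat.Coprime p (∏ x ∈ F.erase p \ S, x) :=
        Nat.Coprime.prod_right fun x hx => by
          have hx' := Finset.mem_erase.1 (Finset.mem_sdiff.1 hx).1
          exact (Nat.coprime_primes hp (hF x hx'.2)).2 hx'.1.symm
      have h4 := Nat.dvd_gcd (show r ∣ (m * ∏ x ∈ S, x) * p by convert h using 1; ring)
        (show r ∣ (m * ∏ x ∈ S, x) * ∏ x ∈ F.erase p \ S, x by convert h3 using 1; ring)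
      rwa [Nat.gcd_mul_left, hcop, mul_one] at h4
    · intro h
      exact h.trans (Nat.mul_dvd_mul_left _ (Dvd.intro_left _ rfl))
  simp only [this]
  exact ⟨_, rfl⟩

end Pool.Agent.Work.MP_969914_nt.QR
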