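import Mathlib

/-! Jacobi symbols with integer arguments, the lower one taken up to sign and powers of two. -/

set_option autoImplicit false

namespace Pool.Agent.Work.MP_969914_nt.QR

/-- The Jacobi symbol of `U` modulo the odd part of `|V|`. -/
def JJ (U V : ℤ) : ℤ := jacobiSym U (ordCompl[2] V.natAbs)

/-- The value of the symbol of `-1`. -/
def kap (v : ℤ) : ℤ := if (v % 4 = 1 ↔ 0 < v) then 1 else -1

/-- The value of the symbol of `2`. -/
def c8 (v : ℤ) : ℤ := if v % 8 = 1 ∨ v % 8 = 7 then 1 else -1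

/-- The reciprocity sign. -/
def rho (u v : ℤ) : ℤ :=
  (if u % 4 = 3 ∧ v % 4 = 3 then -1 else 1) * (if u < 0 ∧ v < 0 then -1 else 1)

lemma JJ_odd (U : ℤ) {v : ℤ} (hv : v % 2 = 1) : JJ U v = jacobiSym U v.natAbs := by
  rw [JJ, (Nat.ordCompl_eq_self_iff_zero_or_not_dvd _ Nat.prime_two).2 (Or.inr (by omega))]

lemma JJ_mul_left (U U' V : ℤ) : JJ (U * U') V = JJ U V * JJ U' V := jacobiSym.mul_left _ _ _

lemma JJ_one_left (V : ℤ) : JJ 1 V = 1 := jacobiSym.one_left _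

lemma JJ_one_right (U : ℤ) : JJ U 1 = 1 := by
  rw [JJ_odd U (by norm_num)]; simp

lemma JJ_mul_right (U : ℤ) {V W : ℤ} (hV : V ≠ 0) (hW : W ≠ 0) :
    JJ U (V * W) = JJ U V * JJ U W := by
  rw [JJ, Int.natAbs_mul, Nat.ordCompl_mul]
  exact jacobiSym.mul_right' U (Nat.ordCompl_pos 2 (by simpa using hV)).ne'
    (Nat.ordCompl_pos 2 (by simpa using hW)).ne'

lemma JJ_two_mul (U V : ℤ) : JJ U (2 * V) = JJ U V := by
  rw [JJ, JJ, Int.natAbs_mul]
  have := Nat.ordCompl_self_pow_mul V.natAbs 1 Nat.prime_two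
  rw [pow_one] at this
  exact congrArg _ this

lemma od_dvd (V : ℤ) : ((ordCompl[2] V.natAbs : ℕ) : ℤ) ∣ V :=
  Int.natCast_dvd.2 (Nat.ordCompl_dvd _ _)

lemma JJ_congr {U U' V : ℤ} (h : V ∣ U - U') : JJ U V = JJ U' V :=
  jacobiSym.mod_left' (Int.emod_emod_of_dvd _ (dvd_refl _) ▸ Int.emod_emod_of_dvd U' (dvd_refl _) ▸
    (Int.emod_emod_of_dvd U (dvd_refl _)).symm ▸ (Int.emod_emod_of_dvd U' (dvd_refl _)).symm ▸
    (Int.emod_eq_emod_iff_emod_sub_eq_zero.2 (Int.emod_eq_zero_of_dvd ((od_dvd V).trans h))))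

lemma JJ_pm {U V : ℤ} (h : IsCoprime U V) : JJ U V = 1 ∨ JJ U V = -1 :=
  jacobiSym.eq_one_or_neg_one (Int.isCoprime_iff_gcd_eq_one.1 (h.of_isCoprime_of_dvd_right (od_dvd V)))

lemma JJ_sq {U V : ℤ} (h : IsCoprime U V) : JJ U V * JJ U V = 1 := by
  rcases JJ_pm h with h | h <;> simp [h]

lemma od_odd {V : ℤ} (hV : V ≠ 0) : Odd (ordCompl[2] V.natAbs) := by
  have := Nat.not_dvd_ordCompl Nat.prime_two (n := V.natAbs) (by simpa using hV)
  rw [Nat.odd_iff]; omega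

lemma JJ_neg_one_sq (V : ℤ) : JJ (-1) V * JJ (-1) V = 1 := JJ_sq (isCoprime_one_left.neg_left)

lemma JJ_two_sq {V : ℤ} (hV : V ≠ 0) : JJ 2 V * JJ 2 V = 1 := by
  have h : Int.gcd 2 (ordCompl[2] V.natAbs : ℕ) = 1 := by
    have := Nat.coprime_ordCompl Nat.prime_two (n := V.natAbs) (by simpa using hV)
    exact_mod_cast this
  rcases jacobiSym.eq_one_or_neg_one h with h | h <;> simp [JJ, h]

lemma JJ_neg_one {v : ℤ} (hv : v % 2 = 1) : JJ (-1) v = kap v := by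
  rw [JJ_odd _ hv, jacobiSym.at_neg_one (Nat.odd_iff.2 (by omega)), ZMod.χ₄_nat_eq_if_mod_four, kap]
  split_ifs <;> omega

lemma JJ_two {v : ℤ} (hv : v % 2 = 1) : JJ 2 v = c8 v := by
  rw [JJ_odd _ hv, jacobiSym.at_two (Nat.odd_iff.2 (by omega)), ZMod.χ₈_nat_eq_if_mod_eight, c8]
  split_ifs <;> omega

lemma JJ_neg (U V : ℤ) : JJ (-U) V = JJ (-1) V * JJ U V := by
  rw [← JJ_mul_left, neg_one_mul]

lemma JJ_recip {u v : ℤ} (hu : u % 2 = 1) (hv : v % 2 = 1) : JJ u v = rho u v * JJ v u := by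
  have key : JJ u.natAbs v = (if u.natAbs % 4 = 3 ∧ v.natAbs % 4 = 3 then -1 else 1) *
      JJ v.natAbs u := by
    rw [JJ_odd _ hv, JJ_odd _ hu,
      ← jacobiSym.quadratic_reciprocity_if (a := u.natAbs) (b := v.natAbs) (by omega) (by omega)]
    split_ifs <;> simp
  have e1 : JJ u v = (if u < 0 then kap v else 1) * JJ u.natAbs v := by
    split_ifs with h
    · rw [← JJ_neg_one hv, ← JJ_neg]; congr 1; omega
    · rw [one_mul]; congr 1; omega
  have e2 : JJ v.natAbs u = (if v < 0 then kap u else 1) * JJ v u := by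
    split_ifs with h
    · rw [← JJ_neg_one hu, ← JJ_neg]; congr 1; omega
    · rw [one_mul]; congr 1; omega
  rw [e1, key, e2, ← mul_assoc, ← mul_assoc]
  congr 1
  unfold rho kap
  split_ifs <;> first | rfl | omega

lemma JJ_prod_left {ι : Type*} (I : Finset ι) (f : ι → ℤ) (V : ℤ) :
    JJ (∏ i ∈ I, f i) V = ∏ i ∈ I, JJ (f i) V := by
  classical
  induction I using Finset.induction_on with
  | empty => simp [JJ_one_left]
  | insert i I hi ih => rw [Finset.prod_insert hi, Finset.prod_insert hi, JJ_mul_left, ih]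

lemma JJ_prod_right {ι : Type*} (I : Finset ι) (f : ι → ℤ) (hf : ∀ i ∈ I, f i ≠ 0) (U : ℤ) :
    JJ U (∏ i ∈ I, f i) = ∏ i ∈ I, JJ U (f i) := by
  classical
  induction I using Finset.induction_on with
  | empty => simp [JJ_one_right]
  | insert i I hi ih =>
    rw [Finset.prod_insert hi, Finset.prod_insert hi, JJ_mul_right _ (hf i (by simp))
      (Finset.prod_ne_zero_iff.2 fun j hj => hf j (by simp [hj])), ih fun j hj => hf j (by simp [hj])]

lemma JJ_natAbs (U V : ℤ) : JJ U (V.natAbs : ℤ) = JJ U V := by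
  rw [JJ, JJ, Int.natAbs_natCast]

lemma JJ_sq_right {P : ℤ} (hP : P ≠ 0) (h : IsSquare P.natAbs) : JJ (-1) P = 1 ∧ JJ 2 P = 1 := by
  obtain ⟨r, hr⟩ := h
  have hr0 : (r : ℤ) ≠ 0 := by rintro h; simp_all
  rw [← JJ_natAbs _ P, ← JJ_natAbs 2 P, hr, Nat.cast_mul, JJ_mul_right _ hr0 hr0,
    JJ_mul_right _ hr0 hr0]
  exact ⟨JJ_neg_one_sq _, JJ_two_sq hr0⟩

lemma JJ_sq_left {P E t : ℤ} (h : IsSquare P.natAbs) (hE : IsCoprime P E) (ht : t = 1 ∨ t = -1)
    (hP : 0 < t * P) : JJ t E * JJ P E = 1 := by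
  obtain ⟨r, hr⟩ := h
  have e : t * P = (r : ℤ) * r := by
    have : ((P.natAbs : ℕ) : ℤ) = r * r := by exact_mod_cast hr
    rcases ht with rfl | rfl <;> omega
  have hc : IsCoprime (t * P) E := by
    rcases ht with rfl | rfl
    · simpa using hE
    · simpa using hE.neg_left
  rw [← JJ_mul_left, e, JJ_mul_left]
  rw [e] at hc
  exact JJ_sq hc.of_mul_left_left

/-- The product of the two symbols. -/
def HH (U V : ℤ) : ℤ := JJ U V * JJ V U

lemma HH_comm (U V : ℤ) : HH U V = HH V U := mul_comm _ _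

lemma JJ_HH {U V : ℤ} (h : IsCoprime U V) : JJ U V = HH U V * JJ V U := by
  rw [HH, mul_assoc, JJ_sq h.symm, mul_one]

lemma HH_odd {u v : ℤ} (hu : u % 2 = 1) (hv : v % 2 = 1) (h : IsCoprime u v) :
    HH u v = rho u v := by
  rw [HH, JJ_recip hu hv, mul_assoc, JJ_sq h.symm, mul_one]

lemma HH_two {U u v : ℤ} (hU : U = 2 * u) (hu : u % 2 = 1) (hv : v % 2 = 1) (h : IsCoprime U v) :
    HH U v = c8 v * rho u v := by
  subst hU
  rw [HH, JJ_mul_left, JJ_two_mul, JJ_two hv, mul_assoc, ← HH, HH_odd hu hv h.of_mul_left_right]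

lemma prod_sub {ι : Type*} [DecidableEq ι] {I A : Finset ι} (hA : A ⊆ I) (hI : Even I.card)
    (g : ι → ℤ) {w : ℤ} (hw : w * w = 1) (h : ∀ i ∈ I, i ∉ A → g i = w) :
    ∏ i ∈ I, g i = ∏ i ∈ A, (g i * w) := by
  rw [Finset.prod_subset hA (f := fun i => g i * w) (fun i hi hn => by rw [h i hi hn, hw]),
    Finset.prod_mul_distrib, Finset.prod_const]
  obtain ⟨r, hr⟩ := hI
  rw [hr, ← two_mul, pow_mul, sq, hw, one_pow, mul_one]

end Pool.Agent.Work.MP_969914_nt.QR
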