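import Pool.Agent.Work.MP_969914_nt.Q.Seq

/-! Consequences of the product over the square-free divisors being a square. -/

set_option autoImplicit false

namespace Pool.Agent.Work.MP_969914_nt.QR

lemma prod_one_form {F : Finset ℕ} (hF : F.Nonempty) (g : Finset ℕ → ℤ) {w : ℤ} (hw : w * w = 1)
    (h : ∀ S ⊆ F, S.Nonempty → g S = w) : ∏ S ∈ F.powerset, g S = g ∅ * w := by
  rw [prod_sub (A := {∅}) (by simp) (by
    rw [Finset.card_powerset]; exact (Nat.even_pow' hF.card_pos.ne').2 even_two) g hw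
    (fun S hS hn => h S (Finset.mem_powerset.1 hS)
      (Finset.nonempty_iff_ne_empty.2 (by simpa using hn))), Finset.prod_singleton]

lemma sign_prod {ι : Type*} (I : Finset ι) (f : ι → ℤ) :
    (∏ i ∈ I, f i).sign = ∏ i ∈ I, (f i).sign := by
  classical
  induction I using Finset.induction_on with
  | empty => simp
  | insert i I hi ih => rw [Finset.prod_insert hi, Finset.prod_insert hi, Int.sign_mul, ih]

/-- The standing hypotheses. -/
structure Ctx (a b s : ℤ) (m : ℕ) (F : Finset ℕ) : Prop where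
  hab : IsCoprime a b
  hs : s = 1 ∨ s = -1
  hX : ∀ k, 2 ≤ k → 0 < s * XX a b k
  hm : 0 < m
  hF : ∀ p ∈ F, p.Prime
  hne : F.Nonempty
  hsq : IsSquare (∏ S ∈ F.powerset, XX a b (m * ∏ p ∈ S, p)).natAbs

lemma two_le_prod {F S : Finset ℕ} (hF : ∀ p ∈ F, p.Prime) (hS : S ⊆ F) (hne : S.Nonempty) :
    2 ≤ ∏ p ∈ S, p := by
  obtain ⟨p, hp⟩ := hne
  exact (hF p (hS hp)).two_le.trans
    (Finset.single_le_prod' (f := fun p => p) (fun x hx => (hF x (hS hx)).pos) hp)

lemma odd_prod {F S : Finset ℕ} (hF : ∀ p ∈ F, p.Prime) (h2 : 2 ∉ F) (hS : S ⊆ F) :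
    (∏ p ∈ S, p) % 2 = 1 :=
  Nat.odd_iff.1 (Finset.prod_induction _ Odd (fun _ _ => Odd.mul) odd_one fun p hp =>
    (hF p (hS hp)).odd_of_ne_two fun e => h2 (e ▸ hS hp))

namespace Ctx

variable {a b s : ℤ} {m : ℕ} {F : Finset ℕ} (h : Ctx a b s m F)
include h

lemma pos {S : Finset ℕ} (hS : S ⊆ F) : 0 < m * ∏ p ∈ S, p :=
  Nat.mul_pos h.hm (Finset.prod_pos fun p hp => (h.hF p (hS hp)).pos)

lemma two_mul_le {S : Finset ℕ} (hS : S ⊆ F) (hne : S.Nonempty) : 2 * m ≤ m * ∏ p ∈ S, p := by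
  rw [mul_comm]; exact Nat.mul_le_mul_left _ (two_le_prod h.hF hS hne)

lemma sign {k : ℕ} (hk : 2 ≤ k) : (XX a b k).sign = s := by
  have := h.hX k hk
  rcases h.hs with rfl | rfl
  · exact Int.sign_eq_one_of_pos (by omega)
  · exact Int.sign_eq_neg_one_of_neg (by omega)

lemma ne {k : ℕ} (hk : 0 < k) : XX a b k ≠ 0 := by
  rcases (show k = 1 ∨ 2 ≤ k by omega) with rfl | hk
  · simp [XX_one]
  · intro e
    simpa [e] using h.hX k hk

lemma ss : s * s = 1 := by rcases h.hs with rfl | rfl <;> rfl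

lemma signP : (∏ S ∈ F.powerset, XX a b (m * ∏ p ∈ S, p)).sign = (XX a b m).sign * s := by
  rw [sign_prod, prod_one_form h.hne _ h.ss fun S hS hne => h.sign (by
    have := h.two_mul_le hS hne; have := h.hm; omega)]
  simp

lemma left2 (hm : 2 ≤ m) {E : ℤ} (hE : ∀ S ⊆ F, IsCoprime (XX a b (m * ∏ p ∈ S, p)) E) :
    ∏ S ∈ F.powerset, JJ (XX a b (m * ∏ p ∈ S, p)) E = 1 := by
  have := JJ_sq_left (t := 1) h.hsq
    (IsCoprime.prod_left fun S hS => hE S (Finset.mem_powerset.1 hS)) (Or.inl rfl) (by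
      rw [one_mul, ← Int.sign_eq_one_iff_pos, h.signP, h.sign hm, h.ss])
  rwa [JJ_one_left, one_mul, JJ_prod_left] at this

lemma left1 (hm : m = 1) {E : ℤ} (hE : ∀ k, 0 < k → IsCoprime (XX a b k) E) :
    JJ s E * ∏ S ∈ F.powerset, JJ (XX a b (m * ∏ p ∈ S, p)) E = 1 := by
  have := JJ_sq_left (t := s) h.hsq
    (IsCoprime.prod_left fun S hS => hE _ (h.pos (Finset.mem_powerset.1 hS))) h.hs (by
      rw [← Int.sign_eq_one_iff_pos, Int.sign_mul, h.signP, hm, XX_one]
      rcases h.hs with rfl | rfl <;> rfl)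
  rwa [JJ_prod_left] at this

lemma right {t : ℤ} (ht : t = -1 ∨ t = 2) :
    ∏ S ∈ F.powerset, JJ t (XX a b (m * ∏ p ∈ S, p)) = 1 := by
  have hne : ∀ S ∈ F.powerset, XX a b (m * ∏ p ∈ S, p) ≠ 0 := fun S hS =>
    h.ne (h.pos (Finset.mem_powerset.1 hS))
  rw [← JJ_prod_right _ _ hne]
  have := JJ_sq_right (Finset.prod_ne_zero_iff.2 hne) h.hsq
  rcases ht with rfl | rfl
  exacts [this.1, this.2]

lemma T1 {i : ℕ} (hm : m = i + 2) : JJ (-1) (YY a b (i + 1)) = 1 := by
  have h1 := h.left2 (by omega) (E := YY a b (i + 1)) fun S hS => cop_X_Y h.hab (h.pos hS) _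
  rw [prod_one_form h.hne _ (JJ_sq (cop_X_Y h.hab (k := i + 3) (by omega) (i + 1)))
    fun S hS hne => J_Y_tail' h.hab (by have := h.two_mul_le hS hne; omega)] at h1
  rw [Finset.prod_empty, mul_one, hm, J_Y_succ h.hab, mul_left_comm,
    JJ_sq (cop_X_Y h.hab (by omega) _), mul_one] at h1
  exact h1

lemma JY0 {k : ℕ} (hk : 2 ≤ k) : JJ (XX a b k) (YY a b 0) =
    JJ (-1) (YY a b 0) * HH b (YY a b 0) * JJ a b := by
  rw [J_Y_tail' h.hab (by omega), J_Y_zero, JJ_HH (cop_Y_b h.hab 0).symm, J_Y_b h.hab, mul_assoc]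

lemma JbX (k : ℕ) : JJ b (XX a b (k + 2)) = HH b (XX a b (k + 2)) * JJ a b := by
  rw [JJ_HH (cop_X_b h.hab _).symm, J_X_b h.hab]

lemma T2 (hm : 2 ≤ m) : HH (XX a b m) (YY a b m) * HH (XX a b m) (YY a b 0) * JJ (-1) (YY a b 0) *
    HH b (YY a b 0) * JJ (-1) (YY a b m) * HH (XX a b (m + 1)) (YY a b m) *
    HH b (XX a b (m + 1)) = 1 := by
  have h1 := h.left2 hm (E := YY a b m) fun S hS => cop_X_Y h.hab (h.pos hS) _
  rw [prod_one_form h.hne _ (JJ_sq (cop_X_Y h.hab (k := m + 2) (by omega) m))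
    fun S hS hne => J_Y_tail' h.hab (by have := h.two_mul_le hS hne; omega)] at h1
  have hab := h.hab
  have e1 : JJ (YY a b m) (XX a b m) = JJ (YY a b 0) (XX a b m) := by
    simpa using J_Y_X hab h.hm 1 0
  have e2 := h.JY0 hm
  obtain ⟨i, rfl⟩ : ∃ i, m = i + 1 := ⟨m - 1, by omega⟩
  rw [Finset.prod_empty, mul_one, JJ_HH (cop_X_Y hab (by omega) _), e1,
    JJ_HH (cop_X_Y hab (by omega) 0).symm, e2, J_Y_succ hab,
    JJ_HH (cop_X_Y hab (k := i + 2) (by omega) _), J_Y_X0 hab, h.JbX, HH_comm (YY a b 0)] at h1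
  have := JJ_sq hab
  linear_combination h1 - (HH (XX a b (i + 1)) (YY a b (i + 1)) * HH (XX a b (i + 1)) (YY a b 0) *
    JJ (-1) (YY a b 0) * HH b (YY a b 0) * JJ (-1) (YY a b (i + 1)) *
    HH (XX a b (i + 1 + 1)) (YY a b (i + 1)) * HH b (XX a b (i + 1 + 1))) * this

lemma T0 (hm : m = 1) : JJ s (YY a b 0) * JJ (XX a b 2) (YY a b 0) = 1 := by
  have h1 := h.left1 hm (E := YY a b 0) fun k hk => cop_X_Y h.hab hk _
  rw [prod_one_form h.hne _ (JJ_sq (cop_X_Y h.hab (k := 2) (by omega) 0))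
    fun S hS hne => J_Y_tail' h.hab (by have := h.two_mul_le hS hne; omega)] at h1
  rwa [Finset.prod_empty, mul_one, hm, XX_one, JJ_one_left, one_mul] at h1

lemma T3 (hm : m = 1) : JJ s (YY a b 0) * JJ (-1) (YY a b 0) * HH b (YY a b 0) * JJ s b = 1 := by
  have h1 := h.T0 hm
  have h2 := h.left1 hm (E := b) fun k hk => cop_X_b' h.hab hk
  rw [prod_one_form h.hne _ (JJ_sq h.hab) fun S hS hne => by
    obtain ⟨k, hk⟩ : ∃ k, m * ∏ p ∈ S, p = k + 2 :=
      ⟨m * ∏ p ∈ S, p - 2, by have := h.two_mul_le hS hne; omega⟩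
    rw [hk, J_X_b h.hab]] at h2
  rw [Finset.prod_empty, mul_one, hm, XX_one, JJ_one_left, one_mul] at h2
  rw [h.JY0 le_rfl] at h1
  have h3 : JJ s b = JJ a b := by
    have := JJ_sq h.hab
    linear_combination JJ a b * h2 - JJ s b * this
  rw [h3]; linear_combination h1

lemma T4 (hm : m = 1) (h2 : 2 ∈ F) {i : ℕ} (hp : 2 * i + 3 ∈ F)
    (hmin : ∀ x ∈ F, x ≠ 2 → 2 * i + 3 ≤ x) :
    HH (XX a b 2) (YY a b (2 * i + 2)) * HH (XX a b 2) (YY a b 0) * JJ (-1) (YY a b (2 * i + 2)) *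
      JJ s (YY a b (2 * i + 2)) * JJ s (YY a b 0) = 1 := by
  classical
  have hab := h.hab
  have h0 := h.T0 hm
  have h1 := h.left1 hm (E := YY a b (2 * i + 2)) fun k hk => cop_X_Y hab hk _
  have hw := JJ_sq (cop_X_Y hab (k := 2 * i + 2 + 2) (by omega) (2 * i + 2))
  rw [prod_sub (A := {∅, {2}, {2 * i + 3}}) (by
      intro S hS
      simp only [Finset.mem_insert, Finset.mem_singleton] at hS
      rcases hS with rfl | rfl | rfl <;> simp [h2, hp])
    (by rw [Finset.card_powerset]; exact (Nat.even_pow' h.hne.card_pos.ne').2 even_two) _ hw (by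
      intro S hS hn
      have hS' := Finset.mem_powerset.1 hS
      simp only [Finset.mem_insert, Finset.mem_singleton, not_or] at hn
      refine J_Y_tail' hab ?_
      rw [hm, one_mul]
      by_cases hx : ∃ x ∈ S, x ≠ 2 ∧ x ≠ 2 * i + 3
      · obtain ⟨x, h3, h4, h5⟩ := hx
        have h6 := hmin x (hS' h3) h4
        have h7 := Finset.single_le_prod' (f := fun p => p) (fun x hx => (h.hF x (hS' hx)).pos) h3
        omega
      · push Not at hx
        have : S = {2, 2 * i + 3} := by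
          ext x
          simp only [Finset.mem_insert, Finset.mem_singleton]
          refine ⟨fun h3 => by by_contra h4; push Not at h4; exact h4.2 (hx x h3 h4.1), ?_⟩
          rintro (rfl | rfl)
          · by_contra h3
            by_cases h4 : 2 * i + 3 ∈ S
            · exact hn.2.2 (Finset.eq_singleton_iff_unique_mem.2
                ⟨h4, fun y hy => hx y hy fun e => h3 (e ▸ hy)⟩)
            · exact hn.1 (Finset.eq_empty_of_forall_notMem fun y hy =>
                h4 (hx y hy (fun e => h3 (e ▸ hy)) ▸ hy))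
          · by_contra h3
            by_cases h4 : 2 ∈ S
            · exact hn.2.1 (Finset.eq_singleton_iff_unique_mem.2
                ⟨h4, fun y hy => by by_contra e; exact h3 (hx y hy e ▸ hy)⟩)
            · exact hn.1 (Finset.eq_empty_of_forall_notMem fun y hy =>
                h3 (hx y hy (fun e => h4 (e ▸ hy)) ▸ hy))
        rw [this, Finset.prod_pair (by omega)]
        omega),
    Finset.prod_insert (by simp),
    Finset.prod_pair (by simp)] at h1
  simp only [hm, one_mul, Finset.prod_empty, Finset.prod_singleton, XX_one, JJ_one_left] at h1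
  have e1 : JJ (YY a b (2 * i + 2)) (XX a b 2) = JJ (YY a b 0) (XX a b 2) := by
    simpa [mul_add] using J_Y_X hab (K := 2) (by norm_num) (i + 1) 0
  have e2 := J_Y_succ hab (2 * i + 1)
  have e3 := JJ_sq (cop_X_Y hab (k := 2 * i + 3) (by omega) (2 * i + 2))
  have e4 : JJ s (YY a b 0) * JJ s (YY a b 0) = 1 := by
    rcases h.hs with rfl | rfl
    · simp [JJ_one_left]
    · exact JJ_neg_one_sq _
  have e5 : JJ (XX a b 2) (YY a b 0) = JJ s (YY a b 0) := by
    linear_combination JJ s (YY a b 0) * h0 - JJ (XX a b 2) (YY a b 0) * e4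
  rw [JJ_HH (cop_X_Y hab (k := 2) (by omega) _), e1, JJ_HH (cop_X_Y hab (by omega) 0).symm, e5,
    HH_comm (YY a b 0)] at h1
  simp only [show 2 * i + 1 + 3 = 2 * i + 2 + 2 by ring, show 2 * i + 1 + 1 = 2 * i + 2 by ring,
    show 2 * i + 1 + 2 = 2 * i + 3 by ring] at e2
  rw [e2] at h1 hw
  generalize JJ (XX a b (2 * i + 3)) (YY a b (2 * i + 2)) = g at *
  generalize JJ (-1) (YY a b (2 * i + 2)) = κ at *
  rw [← h1]
  linear_combination (-(HH (XX a b 2) (YY a b (2 * i + 2)) * HH (XX a b 2) (YY a b 0) * κ *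
      JJ s (YY a b (2 * i + 2)) * JJ s (YY a b 0))) * (e3 + g * g * hw)

lemma T5 (hm : m = 1) (h2 : 2 ∉ F) {t α : ℤ} (ht : t = -1 ∨ t = 2) (hα : α * α = 1)
    (ho : ∀ j, JJ t (XX a b (2 * j + 3)) = α) : α = 1 := by
  have h1 := h.right ht
  rw [prod_one_form h.hne _ hα fun S hS hne => by
    have e1 := two_le_prod h.hF hS hne
    have e2 := odd_prod h.hF h2 hS
    rw [hm, one_mul, show ∏ p ∈ S, p = 2 * ((∏ p ∈ S, p) / 2 - 1) + 3 by omega, ho]] at h1
  rwa [Finset.prod_empty, mul_one, hm, XX_one, JJ_one_right, one_mul] at h1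

lemma T6 (hm : m = 1) (h2 : 2 ∈ F) (h3 : (F.erase 2).Nonempty) {t α β : ℤ} (ht : t = -1 ∨ t = 2)
    (hα : α * α = 1) (hβ : β * β = 1) (ho : ∀ j, JJ t (XX a b (2 * j + 3)) = α)
    (he : ∀ j, JJ t (XX a b (2 * j + 4)) = β) : α * JJ t (XX a b 2) * β = 1 := by
  have h1 := h.right ht
  have hF : ∀ p ∈ F.erase 2, p.Prime := fun p hp => h.hF p (Finset.mem_of_mem_erase hp)
  have hn := Finset.notMem_erase 2 F
  rw [← Finset.insert_erase h2, Finset.prod_powerset_insert hn,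
    prod_one_form h3 _ hα fun S hS hne => by
      have e1 := two_le_prod hF hS hne
      have e2 := odd_prod hF hn hS
      rw [hm, one_mul, show ∏ p ∈ S, p = 2 * ((∏ p ∈ S, p) / 2 - 1) + 3 by omega, ho],
    prod_one_form h3 _ hβ fun S hS hne => by
      have e1 := two_le_prod hF hS hne
      rw [hm, one_mul, Finset.prod_insert fun h => hn (hS h),
        show 2 * ∏ p ∈ S, p = 2 * ((∏ p ∈ S, p) - 2) + 4 by omega, he]] at h1
  simp only [hm, Finset.prod_empty, mul_one, XX_one, JJ_one_right, one_mul,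
    Finset.prod_insert (Finset.notMem_empty 2)] at h1
  rw [← h1]; ring

lemma T7 (hm : m = 2) {t β : ℤ} (ht : t = -1 ∨ t = 2) (hβ : β * β = 1)
    (he : ∀ j, JJ t (XX a b (2 * j + 4)) = β) : JJ t (XX a b 2) * β = 1 := by
  have h1 := h.right ht
  rw [prod_one_form h.hne _ hβ fun S hS hne => by
    have e1 := two_le_prod h.hF hS hne
    rw [hm, show 2 * ∏ p ∈ S, p = 2 * ((∏ p ∈ S, p) - 2) + 4 by omega, he]] at h1
  rwa [Finset.prod_empty, mul_one, hm] at h1

lemma sigma_gen {K j j' : ℕ} (hK : K = j + 2 + (j' + 2)) (hc : Nat.Coprime (j + 2) K) (q q' : ℕ) :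
    JJ (XX a b (K * q + j + 2)) (XX a b K) * JJ (XX a b (K * q' + j' + 2)) (XX a b K) =
      HH (XX a b (j + 2)) (XX a b K) * HH (XX a b (j' + 2)) (XX a b K) *
        HH (XX a b (j + 2)) (XX a b (j' + 2)) := by
  have hab := h.hab
  have hc1 : Nat.Coprime (j + 2) (j' + 2) := by rwa [hK, Nat.coprime_self_add_right] at hc
  have hc2 : Nat.Coprime (j' + 2) K := by rw [hK, Nat.coprime_add_self_right]; exact hc1.symm
  have e1 : JJ (XX a b K) (XX a b (j + 2)) = JJ (XX a b (j' + 2)) (XX a b (j + 2)) := by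
    rw [← J_X_per hab (K := j + 2) (by omega) 1 j', hK]; congr 2; ring
  have e2 : JJ (XX a b K) (XX a b (j' + 2)) = JJ (XX a b (j + 2)) (XX a b (j' + 2)) := by
    rw [← J_X_per hab (K := j' + 2) (by omega) 1 j, hK]; congr 2; ring
  rw [J_X_per hab (by omega), J_X_per hab (by omega), JJ_HH (cop_idx hab (by omega) hc),
    JJ_HH (cop_idx hab (by omega) hc2), e1, e2, HH.eq_1 (XX a b (j + 2)) (XX a b (j' + 2))]
  ring

lemma sigma_one (i q q' : ℕ) :
    JJ (XX a b ((i + 3) * (q + 1) + 1)) (XX a b (i + 3)) *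
      JJ (XX a b ((i + 3) * q' + i + 2)) (XX a b (i + 3)) =
      HH b (XX a b (i + 3)) * HH (XX a b (i + 2)) (XX a b (i + 3)) * HH b (XX a b (i + 2)) := by
  have hab := h.hab
  rw [show (i + 3) * (q + 1) + 1 = (i + 3) * q + (i + 2) + 2 by ring, J_X_per hab (by omega),
    J_X_per hab (by omega), J_X_one hab, h.JbX (i + 1),
    JJ_HH (cop_idx hab (k := i + 2) (j := i + 3) (by omega)
      (by simp [show i + 3 = (i + 2) + 1 from rfl])), J_X_one hab, h.JbX i]
  have := JJ_sq hab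
  linear_combination (HH b (XX a b (i + 3)) * HH (XX a b (i + 2)) (XX a b (i + 3)) *
    HH b (XX a b (i + 2))) * this

lemma T8 (hm : 4 ≤ m) (hm2 : m % 2 = 0) (hmF : ∀ p, p.Prime → p ∣ m → p ∈ F)
    (H1 : ∀ K j j', K % 2 = 0 → 0 < K → j % 2 = 1 → j' % 2 = 1 → 3 ≤ j → 3 ≤ j' → Nat.Coprime j K →
      Nat.Coprime j' K → HH (XX a b j) (XX a b K) * HH (XX a b j') (XX a b K) = 1)
    (H2 : ∀ j j', j % 2 = 1 → j' % 2 = 1 → 3 ≤ j → 3 ≤ j' → Nat.Coprime j j' →
      HH (XX a b j) (XX a b j') = -1)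
    (H3 : ∀ i, HH b (XX a b (2 * i + 4)) * HH (XX a b (2 * i + 3)) (XX a b (2 * i + 4)) *
      HH b (XX a b (2 * i + 3)) = 1) : False := by
  have hab := h.hab
  obtain ⟨t, ht⟩ := Nat.chineseRemainderOfFinset (fun p => if p ∣ 1 + m then 2 else 1) (fun p => p)
    F (fun p hp => (h.hF p hp).ne_zero) (fun p hp q hq hne =>
      (Nat.coprime_primes (h.hF p hp) (h.hF q hq)).2 hne)
  have ht' : ∀ p ∈ F, ¬ p ∣ t ∧ ¬ p ∣ 1 + m * t := by
    intro p hp
    have h1 := ht p hp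
    have hp' := h.hF p hp
    split_ifs at h1 with h2
    · constructor
      · intro h3
        have h4 : p ∣ 2 := (h1.dvd_iff dvd_rfl).1 h3
        rw [(Nat.prime_dvd_prime_iff_eq hp' Nat.prime_two).1 h4] at h2
        omega
      · intro h3
        have h4 : p ∣ 1 + m * 2 := (((h1.mul_left m).add_left 1).dvd_iff dvd_rfl).1 h3
        have h5 : p ∣ 1 + m * 2 + 1 := by
          rw [show 1 + m * 2 + 1 = (1 + m) * 2 by ring]; exact h2.mul_right _
        exact hp'.not_dvd_one ((Nat.dvd_add_right h4).1 h5)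
    · exact ⟨fun h3 => hp'.not_dvd_one ((h1.dvd_iff dvd_rfl).1 h3), fun h3 => h2 (by
        simpa using (((h1.mul_left m).add_left 1).dvd_iff dvd_rfl).1 h3)⟩
  have h2F : 2 ∈ F := hmF 2 Nat.prime_two (by omega)
  obtain ⟨t, rfl⟩ : ∃ u, t = u + 1 := ⟨t - 1, by have := (ht' 2 h2F).1; omega⟩
  set k := 1 + m * (t + 1) with hk
  have hk5 : 5 ≤ k := by have : m ≤ m * (t + 1) := Nat.le_mul_of_pos_right _ (by omega); omega
  have hko : k % 2 = 1 := by have := (ht' 2 h2F).2; omega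
  set n := m * ∏ p ∈ F, p with hn
  have hn0 : 0 < n := h.pos le_rfl
  have hkn : Nat.Coprime k n := by
    refine Nat.coprime_of_dvd fun p hp h1 h2 => ?_
    rcases (Nat.Prime.dvd_mul hp).1 h2 with h3 | h3
    · exact (ht' p (hmF p hp h3)).2 h1
    · obtain ⟨p', h4, h5⟩ := (Prime.dvd_finsetProd_iff hp.prime _).1 h3
      exact (ht' p' h4).2 ((Nat.prime_dvd_prime_iff_eq hp (h.hF p' h4)).1 h5 ▸ h1)
  obtain ⟨k', hk'⟩ : ∃ k', n * (k + 3) = k + k' ∧ 3 ≤ k' := by
    have : k + 3 ≤ n * (k + 3) := Nat.le_mul_of_pos_left _ hn0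
    exact ⟨n * (k + 3) - k, by omega, by omega⟩
  have hk'n : Nat.Coprime k' n := by
    refine Nat.coprime_of_dvd fun p hp h1 h2 => ?_
    have h3 : p ∣ k + k' := hk'.1 ▸ h2.mul_right _
    exact hp.not_dvd_one (hkn ▸ Nat.dvd_gcd ((Nat.dvd_add_left h1).1 h3) h2)
  have hdv : ∀ S ⊆ F, m * ∏ p ∈ S, p ∣ n := fun S hS =>
    Nat.mul_dvd_mul_left _ (Finset.prod_dvd_prod_of_subset _ _ _ hS)
  have hev : ∀ S : Finset ℕ, (m * ∏ p ∈ S, p) % 2 = 0 := fun S => by
    rw [Nat.mul_mod, hm2]; simp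
  have hk'o : k' % 2 = 1 := by
    have h1 : (n * (k + 3)) % 2 = 0 := by rw [Nat.mul_mod, hev F]; simp
    omega
  have h1 := h.left2 (by omega) (E := XX a b k * XX a b k') fun S hS =>
    (cop_idx hab (h.pos hS) (hkn.coprime_dvd_right (hdv S hS)).symm).mul_right
      (cop_idx hab (h.pos hS) (hk'n.coprime_dvd_right (hdv S hS)).symm)
  have red : ∀ S ⊆ F, JJ (XX a b (m * ∏ p ∈ S, p)) (XX a b k * XX a b k') =
      JJ (XX a b k) (XX a b (m * ∏ p ∈ S, p)) * JJ (XX a b k') (XX a b (m * ∏ p ∈ S, p)) := by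
    intro S hS
    have c1 := hkn.coprime_dvd_right (hdv S hS)
    have c2 := hk'n.coprime_dvd_right (hdv S hS)
    rw [JJ_mul_right _ (h.ne (by omega)) (h.ne (by omega)), JJ_HH (cop_idx hab (h.pos hS) c1.symm),
      JJ_HH (cop_idx hab (h.pos hS) c2.symm), HH_comm, HH_comm _ (XX a b k'), mul_mul_mul_comm,
      H1 _ k k' (hev S) (h.pos hS) hko hk'o (by omega) hk'.2 c1 c2, one_mul]
  rw [prod_one_form h.hne _ (w := -1) (by norm_num) fun S hS hne => ?_, red ∅ (by simp),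
    Finset.prod_empty, mul_one] at h1
  · obtain ⟨i, hi⟩ : ∃ i, m = 2 * i + 1 + 3 := ⟨(m - 4) / 2, by omega⟩
    obtain ⟨Q, hQ⟩ : m ∣ n * (k + 3) := (Dvd.intro _ rfl : m ∣ n).mul_right _
    have hlt : t + 2 ≤ Q := by
      by_contra hc
      have : m * Q ≤ m * (t + 1) := Nat.mul_le_mul_left _ (by omega)
      omega
    obtain ⟨q', rfl⟩ := Nat.exists_eq_add_of_le hlt
    have e1 : k' = m * q' + (2 * i + 1) + 2 := by
      have : m * (t + 2 + q') = m * (t + 1) + m + m * q' := by ring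
      omega
    have e2 := h.sigma_one (2 * i + 1) t q'
    rw [← hi, ← e1, add_comm _ 1, ← hk, hi, H3 i, ← hi] at e2
    rw [e2] at h1
    norm_num at h1
  · rw [red S hS]
    have c1 := hkn.coprime_dvd_right (hdv S hS)
    have hK := hev S
    have hK2 := h.two_mul_le hS hne
    obtain ⟨p, hp⟩ := hne
    obtain ⟨c, hc⟩ : p ∣ ∏ p ∈ S, p := Finset.dvd_prod_of_mem _ hp
    obtain ⟨Q, hQ⟩ := (hdv S hS).mul_right (k + 3)
    set K := m * ∏ p ∈ S, p with hKd
    have e0 := Nat.div_add_mod k K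
    have e1 : k % K < K := Nat.mod_lt _ (by omega)
    have e2 : k % K % 2 = 1 := by rw [Nat.mod_mod_of_dvd _ (by omega), hko]
    have e3 : k % K % m = 1 := by
      rw [Nat.mod_mod_of_dvd _ (Dvd.intro _ rfl), hk, Nat.add_mul_mod_self_left]
      exact Nat.mod_eq_of_lt (by omega)
    have e4 : k % K ≠ 1 := by
      intro e
      refine (ht' p (hS hp)).1 ⟨c * (k / K), Nat.eq_of_mul_eq_mul_left h.hm ?_⟩
      have : m * (p * (c * (k / K))) = K * (k / K) := by rw [hKd, hc]; ring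
      omega
    have e5 : k % K + 1 ≠ K := by
      intro e
      have h2 : (k % K + 1) % m = 0 := by rw [e, hKd]; simp
      rw [Nat.add_mod, e3, Nat.mod_eq_of_lt (show 1 < m by omega),
        Nat.mod_eq_of_lt (show 1 + 1 < m by omega)] at h2
      omega
    have c2 : Nat.Coprime (k % K) K := by
      rw [Nat.Coprime, ← Nat.gcd_rec]; exact c1.symm
    obtain ⟨j, hj⟩ : ∃ j, k % K = j + 2 := ⟨k % K - 2, by omega⟩
    obtain ⟨j', hj'⟩ : ∃ j', K = j + 2 + (j' + 2) := ⟨K - (j + 4), by omega⟩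
    have hlt : k / K + 1 ≤ Q := by
      by_contra hc
      have : K * Q ≤ K * (k / K) := Nat.mul_le_mul_left _ (by omega)
      omega
    obtain ⟨q', rfl⟩ := Nat.exists_eq_add_of_le hlt
    have e6 : k' = K * q' + j' + 2 := by
      have : K * (k / K + 1 + q') = K * (k / K) + K + K * q' := by ring
      omega
    rw [hj] at c2
    have c3 : Nat.Coprime (j + 2) (j' + 2) := by rwa [hj', Nat.coprime_self_add_right] at c2
    have c4 : Nat.Coprime (j' + 2) K := by rw [hj', Nat.coprime_add_self_right]; exact c3.symm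
    have e7 := h.sigma_gen hj' c2 (k / K) q'
    rw [← e6, show K * (k / K) + j + 2 = k by omega,
      H1 K _ _ hK (by omega) (by omega) (by omega) (by omega) (by omega) c2 c4,
      H2 _ _ (by omega) (by omega) (by omega) (by omega) c3, one_mul] at e7
    exact e7

end Ctx

end Pool.Agent.Work.MP_969914_nt.QR
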